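import Mathlib

open MeasureTheory Set Filter ProbabilityTheory
open scoped ENNReal NNReal Topology

namespace Pool.Agent.Lib.MP_5dec12_pr

/-- Continuous real paths vanishing at `0`. -/
abbrev E : Type := {w : ℝ → ℝ // Continuous w ∧ w 0 = 0}

lemma E.ext' {w v : E} (h : ∀ t, w.1 t = v.1 t) : w = v := Subtype.ext (funext h)

lemma meas_eval (t : ℝ) : Measurable (fun w : E => w.1 t) :=
  (measurable_pi_apply t).comp measurable_subtype_coe

lemma meas_E {α : Type*} [MeasurableSpace α] {f : α → E}
    (h : ∀ t, Measurable (fun a => (f a).1 t)) : Measurable f :=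
  Measurable.subtype_mk (f := fun a => (f a).1) (h := fun a => (f a).2) (measurable_pi_iff.2 h)

lemma meas_eval2 : Measurable (fun p : ℝ × E => p.2.1 p.1) :=
  measurable_uncurry_of_continuous_of_measurable (u := fun (t : ℝ) (w : E) => w.1 t)
    (fun w => w.2.1) meas_eval

lemma meas_evalc {α : Type*} [MeasurableSpace α] {f : α → E} {τ : α → ℝ} (hf : Measurable f)
    (hτ : Measurable τ) : Measurable (fun a => (f a).1 (τ a)) :=
  meas_eval2.comp (hτ.prodMk hf)

/-- shift of a path -/
def th (s : ℝ) (w : E) : E :=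
  ⟨fun t => w.1 (s + t) - w.1 s, by
    have := w.2.1
    fun_prop, by simp⟩

/-- forward part -/
def fwd (w : E) : E :=
  ⟨fun t => w.1 (max t 0), by
    have := w.2.1
    fun_prop, by simp [w.2.2]⟩

/-- backward part -/
def bwd (w : E) : E :=
  ⟨fun t => w.1 (-(max t 0)), by
    have := w.2.1
    fun_prop, by simp [w.2.2]⟩

/-- join a past and a future -/
def J (p : E × E) : E :=
  ⟨fun t => p.2.1 (max t 0) + p.1.1 (max (-t) 0), by
    have := p.1.2.1
    have := p.2.2.1
    fun_prop, by simp [p.1.2.2, p.2.2.2]⟩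

/-- run `w` until `τ` and then `v` -/
def glue (τ : ℝ≥0) (w v : E) : E :=
  ⟨fun t => w.1 (max t 0) + v.1 (max (t - τ) 0), by
    have := w.2.1
    have := v.2.1
    fun_prop, by simp [w.2.2, v.2.2]⟩

/-- stopped path -/
def stp (s : ℝ≥0) (w : E) : E :=
  ⟨fun t => w.1 (min (max t 0) s), by
    have := w.2.1
    fun_prop, by simp [w.2.2]⟩

lemma th_apply (s : ℝ) (w : E) (t : ℝ) : (th s w).1 t = w.1 (s + t) - w.1 s := rfl
lemma fwd_apply (w : E) (t : ℝ) : (fwd w).1 t = w.1 (max t 0) := rfl
lemma bwd_apply (w : E) (t : ℝ) : (bwd w).1 t = w.1 (-(max t 0)) := rfl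
lemma J_apply (p : E × E) (t : ℝ) : (J p).1 t = p.2.1 (max t 0) + p.1.1 (max (-t) 0) := rfl
lemma glue_apply (τ : ℝ≥0) (w v : E) (t : ℝ) :
    (glue τ w v).1 t = w.1 (max t 0) + v.1 (max (t - τ) 0) := rfl
lemma stp_apply (s : ℝ≥0) (w : E) (t : ℝ) : (stp s w).1 t = w.1 (min (max t 0) s) := rfl

lemma th_th (s r : ℝ) (w : E) : th s (th r w) = th (r + s) w := by
  refine E.ext' fun t => ?_
  simp only [th_apply]
  rw [add_assoc]
  ring

lemma th_zero (w : E) : th 0 w = w := by
  refine E.ext' fun t => ?_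
  simp only [th_apply, w.2.2]
  simp

lemma J_bwd_fwd (w : E) : J (bwd w, fwd w) = w := by
  refine E.ext' fun t => ?_
  simp only [J_apply, bwd_apply, fwd_apply]
  rcases le_total 0 t with h | h
  · have h1 : max t 0 = t := max_eq_left h
    have h2 : max (-t) 0 = 0 := max_eq_right (by linarith)
    simp [h1, h2, w.2.2]
  · have h1 : max t 0 = 0 := max_eq_right h
    have h2 : max (-t) 0 = -t := max_eq_left (by linarith)
    simp [h1, h2, w.2.2]

lemma fwd_J (p : E × E) : fwd (J p) = fwd p.2 := by
  refine E.ext' fun t => ?_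
  simp only [J_apply, fwd_apply]
  simp [p.1.2.2]

lemma bwd_J (p : E × E) : bwd (J p) = fwd p.1 := by
  refine E.ext' fun t => ?_
  simp only [J_apply, fwd_apply, bwd_apply]
  simp [p.2.2.2]

lemma fwd_fwd (w : E) : fwd (fwd w) = fwd w := by
  refine E.ext' fun t => ?_
  simp [fwd_apply]

lemma fwd_bwd (w : E) : fwd (bwd w) = bwd w := by
  refine E.ext' fun t => ?_
  simp [fwd_apply, bwd_apply]

lemma J_fwd_fwd (z b : E) : J (fwd z, fwd b) = J (z, b) := by
  refine E.ext' fun t => ?_
  simp [J_apply, fwd_apply]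

section meas

variable {α : Type*} [MeasurableSpace α]

lemma meas_th' {s : α → ℝ} {f : α → E} (hs : Measurable s) (hf : Measurable f) :
    Measurable (fun a => th (s a) (f a)) :=
  meas_E fun t => (meas_evalc hf (hs.add_const t)).sub (meas_evalc hf hs)

lemma meas_th (s : ℝ) : Measurable (th s) := meas_th' measurable_const measurable_id

lemma meas_fwd : Measurable fwd := meas_E fun _ => meas_eval _

lemma meas_bwd : Measurable bwd := meas_E fun _ => meas_eval _

lemma meas_J : Measurable J :=
  meas_E fun _ => ((meas_eval _).comp measurable_snd).add ((meas_eval _).comp measurable_fst)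

lemma meas_glue' {τ : α → ℝ≥0} {f g : α → E} (hτ : Measurable τ) (hf : Measurable f)
    (hg : Measurable g) : Measurable (fun a => glue (τ a) (f a) (g a)) :=
  meas_E fun _ => (meas_evalc hf measurable_const).add
    (meas_evalc hg ((measurable_const.sub hτ.coe_nnreal_real).max measurable_const))

lemma meas_stp' {τ : α → ℝ≥0} {f : α → E} (hτ : Measurable τ) (hf : Measurable f) :
    Measurable (fun a => stp (τ a) (f a)) := by
  refine meas_E fun t => ?_
  have : Measurable fun a => (f a).1 (min (max t 0) (τ a)) :=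
    meas_evalc hf (measurable_const.min hτ.coe_nnreal_real)
  exact this

end meas

lemma E_measure_ext {μ ν : Measure E}
    (h : μ.map (Subtype.val : E → ℝ → ℝ) = ν.map (Subtype.val : E → ℝ → ℝ)) : μ = ν := by
  ext A hA
  obtain ⟨A', hA', rfl⟩ := hA
  rw [← Measure.map_apply measurable_subtype_coe hA', h,
    Measure.map_apply measurable_subtype_coe hA']

lemma pi_measure_ext {S : Type*} {μ ν : Measure (S → ℝ)} [IsFiniteMeasure μ] [IsFiniteMeasure ν]
    (h : ∀ I : Finset S, μ.map I.restrict = ν.map I.restrict) : μ = ν := by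
  have h1 : IsProjectiveLimit (α := fun _ : S => ℝ) μ (fun I => μ.map I.restrict) := fun I => rfl
  have h2 : IsProjectiveLimit (α := fun _ : S => ℝ) ν (fun I => μ.map I.restrict) := fun I => (h I).symm
  have : ∀ I : Finset S, IsFiniteMeasure (μ.map I.restrict) := fun I => inferInstance
  exact h1.unique h2

lemma E_fdd_ext {μ ν : Measure E} [IsFiniteMeasure μ] [IsFiniteMeasure ν]
    (h : ∀ I : Finset ℝ, μ.map (fun w : E => I.restrict w.1) = ν.map (fun w : E => I.restrict w.1)) :
    μ = ν := by
  refine E_measure_ext ?_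
  have : IsFiniteMeasure (μ.map (Subtype.val : E → ℝ → ℝ)) := inferInstance
  have : IsFiniteMeasure (ν.map (Subtype.val : E → ℝ → ℝ)) := inferInstance
  refine pi_measure_ext fun I => ?_
  rw [Measure.map_map (Finset.measurable_restrict I) measurable_subtype_coe,
    Measure.map_map (Finset.measurable_restrict I) measurable_subtype_coe]
  exact h I

lemma exists_path {Ω : Type*} {mΩ : MeasurableSpace Ω} {P : Measure Ω} {X : ℝ → Ω → ℝ}
    (hX : ∀ t, Measurable (X t)) (hc : ∀ᵐ ω ∂P, Continuous (fun t => X t ω)) :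
    ∃ Xh : Ω → E, Measurable Xh ∧ ∀ᵐ ω ∂P, ∀ t, (Xh ω).1 t = X t ω - X 0 ω := by
  classical
  set N := toMeasurable P {ω | ¬ Continuous (fun t => X t ω)} with hN
  have hNm : MeasurableSet N := measurableSet_toMeasurable _ _
  have hN0 : P N = 0 := by
    rw [hN, measure_toMeasurable]
    exact hc
  have hcN : ∀ ω, ω ∉ N → Continuous (fun t => X t ω) := by
    intro ω hω
    by_contra h
    exact hω (subset_toMeasurable _ _ h)
  let Xh : Ω → E := fun ω => if h : ω ∈ N then ⟨fun _ => 0, continuous_const, rfl⟩ else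
    ⟨fun t => X t ω - X 0 ω, (hcN ω h).sub continuous_const, by simp⟩
  refine ⟨Xh, meas_E fun t => ?_, ?_⟩
  · have : (fun ω => (Xh ω).1 t) = fun ω => if ω ∈ N then 0 else X t ω - X 0 ω := by
      ext ω
      by_cases h : ω ∈ N
      · simp [Xh, h]
      · simp [Xh, h]
    rw [this]
    exact Measurable.ite hNm measurable_const ((hX t).sub (hX 0))
  · have : ∀ᵐ ω ∂P, ω ∉ N := by
      rw [ae_iff]
      simpa using hN0
    filter_upwards [this] with ω hω t
    simp [Xh, hω]

end Pool.Agent.Lib.MP_5dec12_pr
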