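import Mathlib
import Pool.Agent.Lib.MP_5dec12_pr.Path

open MeasureTheory Set Filter ProbabilityTheory
open scoped ENNReal NNReal Topology

namespace Pool.Agent.Lib.MP_5dec12_pr

/-- one-sided Wiener law -/
structure IsBeta (β : Measure E) : Prop where
  bm : IsPreBrownianReal (fun (t : ℝ≥0) (w : E) => w.1 t) β
  fw : ∀ᵐ w ∂β, fwd w = w

lemma IsBeta.prob {β : Measure E} (h : IsBeta β) : IsProbabilityMeasure β :=
  h.bm.isGaussianProcess.isProbabilityMeasure

lemma preBM_map_iff {Ω : Type*} {mΩ : MeasurableSpace Ω} {P : Measure Ω} {b : Ω → E}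
    (hb : Measurable b) : IsPreBrownianReal (fun (t : ℝ≥0) (w : E) => w.1 t) (P.map b) ↔
      IsPreBrownianReal (fun (t : ℝ≥0) ω => (b ω).1 t) P := by
  have hm : ∀ I : Finset ℝ≥0, Measurable (fun w : E => I.restrict (fun t : ℝ≥0 => w.1 t)) :=
    fun I => measurable_pi_iff.2 fun t => meas_eval _
  constructor
  · intro h
    refine ⟨fun I => ⟨((hm I).comp hb).aemeasurable, ?_⟩⟩
    have := (h.hasLaw I).map_eq
    rw [Measure.map_map (hm I) hb] at this
    exact this
  · intro h
    refine ⟨fun I => ⟨(hm I).aemeasurable, ?_⟩⟩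
    rw [Measure.map_map (hm I) hb]
    exact (h.hasLaw I).map_eq

lemma preBM_law_eq {Ω Ω' : Type*} {mΩ : MeasurableSpace Ω} {mΩ' : MeasurableSpace Ω'}
    {P : Measure Ω} {P' : Measure Ω'} {B : ℝ≥0 → Ω → ℝ} {B' : ℝ≥0 → Ω' → ℝ}
    (h : IsPreBrownianReal B P) (h' : IsPreBrownianReal B' P')
    (hm : ∀ t, Measurable (B t)) (hm' : ∀ t, Measurable (B' t)) :
    P.map (fun ω t => B t ω) = P'.map (fun ω t => B' t ω) := by
  have := h.isGaussianProcess.isProbabilityMeasure
  have := h'.isGaussianProcess.isProbabilityMeasure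
  have h1 : Measurable (fun ω t => B t ω) := measurable_pi_iff.2 hm
  have h2 : Measurable (fun ω t => B' t ω) := measurable_pi_iff.2 hm'
  refine pi_measure_ext fun I => ?_
  rw [Measure.map_map (Finset.measurable_restrict I) h1,
    Measure.map_map (Finset.measurable_restrict I) h2]
  exact (h.hasLaw I).map_eq.trans (h'.hasLaw I).map_eq.symm

/-- extension of a function on the half-line -/
def extFun (f : ℝ≥0 → ℝ) : ℝ → ℝ := fun t => f t.toNNReal

lemma meas_extFun : Measurable extFun := measurable_pi_iff.2 fun _ => measurable_pi_apply _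

lemma fwd_val (w : E) : (fwd w).1 = extFun (fun t : ℝ≥0 => w.1 t) := by
  ext t
  simp [fwd_apply, extFun, Real.coe_toNNReal']

lemma IsBeta.unique {β β' : Measure E} (h : IsBeta β) (h' : IsBeta β') : β = β' := by
  have e : ∀ γ : Measure E, IsBeta γ →
      γ.map (Subtype.val : E → ℝ → ℝ) = (γ.map (fun (w : E) (t : ℝ≥0) => w.1 t)).map extFun := by
    intro γ hγ
    have hm : Measurable (fun (w : E) (t : ℝ≥0) => w.1 t) := measurable_pi_iff.2 fun t => meas_eval _
    rw [Measure.map_map meas_extFun hm]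
    refine Measure.map_congr ?_
    filter_upwards [hγ.fw] with w hw
    rw [Function.comp_apply, ← fwd_val, hw]
  refine E_measure_ext ?_
  rw [e β h, e β' h', preBM_law_eq h.bm h'.bm (fun t => meas_eval _) (fun t => meas_eval _)]

lemma isBeta_of_process {Ω : Type*} {mΩ : MeasurableSpace Ω} {P : Measure Ω} {B : ℝ≥0 → Ω → ℝ}
    (hB : IsPreBrownianReal B P) {b : Ω → E} (hb : Measurable b)
    (h : ∀ t : ℝ≥0, ∀ᵐ ω ∂P, (b ω).1 t = B t ω) (h2 : ∀ᵐ ω ∂P, fwd (b ω) = b ω) :
    IsBeta (P.map b) := by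
  refine ⟨(preBM_map_iff hb).2 (hB.congr fun t => ?_), ?_⟩
  · filter_upwards [h t] with ω hω using hω.symm
  · rw [ae_map_iff hb.aemeasurable]
    · exact h2
    · have hms : MeasurableSet {w : E | ∀ q : ℚ, (fwd w).1 q = w.1 q} := by
        rw [ofPred_forall]
        exact MeasurableSet.iInter fun q => measurableSet_eq_fun
          ((meas_eval _).comp meas_fwd) (meas_eval _)
      convert hms using 1
      ext w
      simp only [mem_ofPred_eq]
      constructor
      · intro hw q
        rw [hw]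
      · intro hw
        refine E.ext' fun t => ?_
        have := Rat.denseRange_cast (𝕜 := ℝ)
        exact congrFun (this.equalizer (fwd w).2.1 w.2.1 (funext hw)) t

/-- the law of two-sided Brownian motion -/
noncomputable def WW (β : Measure E) : Measure E := (β.prod β).map J

variable {β : Measure E}

lemma WW_prob (hβ : IsBeta β) : IsProbabilityMeasure (WW β) := by
  have := hβ.prob
  exact Measure.isProbabilityMeasure_map meas_J.aemeasurable

lemma WW_bwd_fwd (hβ : IsBeta β) :
    (WW β).map (fun w => (bwd w, fwd w)) = β.prod β := by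
  have := hβ.prob
  rw [WW, Measure.map_map (meas_bwd.prodMk meas_fwd) meas_J]
  have h1 : ((fun w => (bwd w, fwd w)) ∘ J) =ᵐ[β.prod β] id := by
    have h2 : ∀ᵐ p ∂β.prod β, fwd p.1 = p.1 := by
      exact Measure.quasiMeasurePreserving_fst.ae hβ.fw
    have h3 : ∀ᵐ p ∂β.prod β, fwd p.2 = p.2 := by
      exact Measure.quasiMeasurePreserving_snd.ae hβ.fw
    filter_upwards [h2, h3] with p h2 h3
    simp only [Function.comp_apply, bwd_J, fwd_J, h2, h3]
    rfl
  rw [Measure.map_congr h1, Measure.map_id]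

lemma eq_WW {μ : Measure E} (h : μ.map (fun w => (bwd w, fwd w)) = β.prod β) : μ = WW β := by
  rw [WW, ← h, Measure.map_map meas_J (meas_bwd.prodMk meas_fwd)]
  have : J ∘ (fun w => (bwd w, fwd w)) = id := by
    ext1 w
    exact J_bwd_fwd w
  rw [this, Measure.map_id]


lemma indepFun_E {Ω S γ : Type*} {mΩ : MeasurableSpace Ω} {mS : MeasurableSpace S}
    {mγ : MeasurableSpace γ} {P : Measure Ω} {f : Ω → E} {f' : Ω → S} {φ : S → ℝ → ℝ}
    (hφ : Measurable φ) (h : ∀ ω, (f ω).1 = φ (f' ω)) {g : Ω → γ} (hI : IndepFun f' g P) :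
    IndepFun f g P := by
  have h1 : MeasurableSpace.comap f inferInstance ≤ MeasurableSpace.comap f' mS := by
    have h2 : MeasurableSpace.comap f inferInstance =
        MeasurableSpace.comap (fun ω => (f ω).1) inferInstance := by
      change MeasurableSpace.comap f (MeasurableSpace.comap Subtype.val MeasurableSpace.pi) = _
      rw [MeasurableSpace.comap_comp]
      rfl
    rw [h2]
    have h3 : (fun ω => (f ω).1) = φ ∘ f' := funext h
    rw [h3, ← MeasurableSpace.comap_comp]
    exact MeasurableSpace.comap_mono hφ.comap_le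
  rw [IndepFun_iff_Indep] at hI ⊢
  exact indep_of_indep_of_le_left hI h1

/-- covariance of two-sided Brownian motion -/
noncomputable def cc (s t : ℝ) : ℝ := (|s| + |t| - |s - t|) / 2

lemma cc_pos {s t : ℝ} (hs : 0 ≤ s) (hst : s ≤ t) : cc s t = s := by
  unfold cc
  rw [abs_of_nonneg hs, abs_of_nonneg (hs.trans hst), abs_of_nonpos (by linarith)]
  ring

lemma cc_neg {s t : ℝ} (hs : 0 ≤ s) (hst : s ≤ t) : cc (-s) (-t) = s := by
  unfold cc
  rw [abs_neg, abs_neg, abs_of_nonneg hs, abs_of_nonneg (hs.trans hst), abs_of_nonneg (by linarith)]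
  ring

lemma cc_cross {s t : ℝ} (hs : 0 ≤ s) (ht : 0 ≤ t) : cc s (-t) = 0 := by
  unfold cc
  rw [abs_neg, abs_of_nonneg hs, abs_of_nonneg ht, abs_of_nonneg (by linarith)]
  ring

lemma law_eq_WW {Ω : Type*} {mΩ : MeasurableSpace Ω} {P : Measure Ω} (hβ : IsBeta β) {Z : Ω → E}
    (hZ : Measurable Z) (hG : IsGaussianProcess (fun (t : ℝ) ω => (Z ω).1 t) P)
    (h0 : ∀ t, P[fun ω => (Z ω).1 t] = 0)
    (hc : ∀ s t, cov[fun ω => (Z ω).1 s, fun ω => (Z ω).1 t; P] = cc s t) :
    P.map Z = WW β := by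
  have hP := hG.isProbabilityMeasure
  apply eq_WW
  have hf : IsPreBrownianReal (fun (t : ℝ≥0) ω => (Z ω).1 t) P := by
    refine IsGaussianProcess.isPreBrownianReal_of_covariance
      (hG.comp_right (fun t : ℝ≥0 => (t : ℝ))) (fun t => h0 t) fun s t hst => ?_
    rw [hc]
    exact cc_pos s.2 hst
  have hb : IsPreBrownianReal (fun (t : ℝ≥0) ω => (Z ω).1 (-t)) P := by
    refine IsGaussianProcess.isPreBrownianReal_of_covariance
      (hG.comp_right (fun t : ℝ≥0 => (-t : ℝ))) (fun t => h0 _) fun s t hst => ?_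
    rw [hc]
    exact cc_neg s.2 hst
  have hI : IndepFun (fun ω (t : ℝ≥0) => (Z ω).1 (-t)) (fun ω (t : ℝ≥0) => (Z ω).1 t) P := by
    refine IsGaussianProcess.indepFun_of_covariance_eq_zero (X := fun (t : ℝ≥0) ω => (Z ω).1 (-t))
      (Y := fun (t : ℝ≥0) ω => (Z ω).1 t) ?_ ?_ ?_ ?_
    · have := hG.comp_right (Sum.elim (fun t : ℝ≥0 => (-t : ℝ)) (fun t : ℝ≥0 => (t : ℝ)))
      have he : Sum.elim (fun (t : ℝ≥0) ω => (Z ω).1 (-t)) (fun (t : ℝ≥0) ω => (Z ω).1 t) =
          (fun t ω => (Z ω).1 t) ∘ Sum.elim (fun t : ℝ≥0 => (-t : ℝ)) (fun t : ℝ≥0 => (t : ℝ)) := by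
        ext x ω
        rcases x with x | x <;> rfl
      rw [he]
      exact this
    · exact fun t => ((meas_eval _).comp hZ).aemeasurable
    · exact fun t => ((meas_eval _).comp hZ).aemeasurable
    · intro s t
      rw [covariance_comm, hc]
      exact cc_cross t.2 s.2
  have hI2 : IndepFun (fun ω => bwd (Z ω)) (fun ω => fwd (Z ω)) P := by
    have h1 : IndepFun (fun ω => bwd (Z ω)) (fun ω (t : ℝ≥0) => (Z ω).1 t) P := by
      refine indepFun_E meas_extFun (fun ω => ?_) hI
      ext t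
      simp [bwd_apply, extFun, Real.coe_toNNReal']
    refine (indepFun_E meas_extFun (fun ω => ?_) h1.symm).symm
    exact fwd_val _
  have e1 : P.map (fun ω => bwd (Z ω)) = β := by
    refine IsBeta.unique (isBeta_of_process hb (meas_bwd.comp hZ) (fun t => ?_) ?_) hβ
    · refine Eventually.of_forall fun ω => ?_
      simp [bwd_apply]
    · exact Eventually.of_forall fun ω => fwd_bwd _
  have e2 : P.map (fun ω => fwd (Z ω)) = β := by
    refine IsBeta.unique (isBeta_of_process hf (meas_fwd.comp hZ) (fun t => ?_) ?_) hβ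
    · refine Eventually.of_forall fun ω => ?_
      simp [fwd_apply]
    · exact Eventually.of_forall fun ω => fwd_fwd _
  rw [Measure.map_map (meas_bwd.prodMk meas_fwd) hZ]
  have h3 := (indepFun_iff_map_prod_eq_prod_map_map (meas_bwd.comp hZ).aemeasurable
    (meas_fwd.comp hZ).aemeasurable).1 hI2
  have e1' : P.map (bwd ∘ Z) = β := e1
  have e2' : P.map (fwd ∘ Z) = β := e2
  rw [e1', e2'] at h3
  exact h3

lemma J_gauss (hβ : IsBeta β) :
    IsGaussianProcess (fun (t : ℝ) (p : E × E) => (J p).1 t) (β.prod β) := by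
  have hP := hβ.prob
  have hb : IsPreBrownianReal (fun (t : ℝ≥0) (p : E × E) => p.2.1 t) (β.prod β) := by
    rw [← preBM_map_iff measurable_snd, Measure.map_snd_prod]
    simpa using hβ.bm
  have hz : IsPreBrownianReal (fun (t : ℝ≥0) (p : E × E) => p.1.1 t) (β.prod β) := by
    rw [← preBM_map_iff measurable_fst, Measure.map_fst_prod]
    simpa using hβ.bm
  refine ⟨fun I => ?_⟩
  classical
  let I' : Finset ℝ≥0 := I.image (fun t => t.toNNReal) ∪ I.image (fun t => (-t).toNNReal)
  have h1 := (hz.isGaussianProcess.hasGaussianLaw I')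
  have h2 := (hb.isGaussianProcess.hasGaussianLaw I')
  have hm : Measurable (fun w : E => I'.restrict (fun t : ℝ≥0 => w.1 t)) :=
    measurable_pi_iff.2 fun t => meas_eval _
  have hI : IndepFun (fun p : E × E => I'.restrict (fun t : ℝ≥0 => p.1.1 t))
      (fun p : E × E => I'.restrict (fun t : ℝ≥0 => p.2.1 t)) (β.prod β) :=
    indepFun_prod hm hm
  have h3 := IndepFun.hasGaussianLaw h1 h2 hI
  let L : (I' → ℝ) × (I' → ℝ) →L[ℝ] (I → ℝ) :=
    { toFun x t := x.2 ⟨t.1.toNNReal, Finset.mem_union_left _ (Finset.mem_image_of_mem _ t.2)⟩ +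
        x.1 ⟨(-t.1).toNNReal, Finset.mem_union_right _
          (Finset.mem_image_of_mem (fun t : ℝ => (-t).toNNReal) t.2)⟩
      map_add' x y := by ext; simp; ring
      map_smul' c x := by ext; simp; ring }
  have h4 := h3.map L
  convert! h4 using 1

lemma snd_preBM (hβ : IsBeta β) :
    IsPreBrownianReal (fun (t : ℝ≥0) (p : E × E) => p.2.1 t) (β.prod β) := by
  have hP := hβ.prob
  rw [← preBM_map_iff measurable_snd, Measure.map_snd_prod]
  simpa using hβ.bm

lemma fst_preBM (hβ : IsBeta β) :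
    IsPreBrownianReal (fun (t : ℝ≥0) (p : E × E) => p.1.1 t) (β.prod β) := by
  have hP := hβ.prob
  rw [← preBM_map_iff measurable_fst, Measure.map_fst_prod]
  simpa using hβ.bm

lemma J_eq (p : E × E) (t : ℝ) : (J p).1 t = p.2.1 t.toNNReal + p.1.1 (-t).toNNReal := by
  simp [J_apply, Real.coe_toNNReal']

lemma J_mean (hβ : IsBeta β) (t : ℝ) : (β.prod β)[fun p => (J p).1 t] = 0 := by
  have hP := hβ.prob
  simp_rw [J_eq]
  rw [integral_add ((snd_preBM hβ).integrable_eval _) ((fst_preBM hβ).integrable_eval _)]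
  have h1 := (snd_preBM hβ).integral_eval t.toNNReal
  have h2 := (fst_preBM hβ).integral_eval (-t).toNNReal
  rw [h1, h2, add_zero]

lemma cc_eq (s t : ℝ) : (min s.toNNReal t.toNNReal : ℝ≥0) + (min (-s).toNNReal (-t).toNNReal : ℝ≥0)
    = cc s t := by
  rcases le_total 0 s with hs | hs <;> rcases le_total 0 t with ht | ht
  · rw [Real.toNNReal_of_nonpos (neg_nonpos.2 hs), Real.toNNReal_of_nonpos (neg_nonpos.2 ht)]
    simp only [NNReal.coe_min, Real.coe_toNNReal _ hs, Real.coe_toNNReal _ ht]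
    unfold cc
    rw [abs_of_nonneg hs, abs_of_nonneg ht]
    rcases le_total s t with h | h
    · rw [abs_of_nonpos (by linarith), min_eq_left h]; simp; ring
    · rw [abs_of_nonneg (by linarith), min_eq_right h]; simp
  · rw [Real.toNNReal_of_nonpos (neg_nonpos.2 hs), Real.toNNReal_of_nonpos ht]
    unfold cc
    rw [abs_of_nonneg hs, abs_of_nonpos ht, abs_of_nonneg (by linarith)]
    simp
  · rw [Real.toNNReal_of_nonpos (neg_nonpos.2 ht), Real.toNNReal_of_nonpos hs]
    unfold cc
    rw [abs_of_nonpos hs, abs_of_nonneg ht, abs_of_nonpos (by linarith)]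
    simp
    ring
  · rw [Real.toNNReal_of_nonpos hs, Real.toNNReal_of_nonpos ht]
    simp only [NNReal.coe_min, Real.coe_toNNReal _ (neg_nonneg.2 hs),
      Real.coe_toNNReal _ (neg_nonneg.2 ht)]
    unfold cc
    rw [abs_of_nonpos hs, abs_of_nonpos ht]
    rcases le_total s t with h | h
    · rw [abs_of_nonpos (by linarith), min_eq_right (show -t ≤ -s by linarith)]; simp; ring
    · rw [abs_of_nonneg (by linarith), min_eq_left (show -s ≤ -t by linarith)]; simp; ring

lemma J_cov (hβ : IsBeta β) (s t : ℝ) :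
    cov[fun p => (J p).1 s, fun p => (J p).1 t; β.prod β] = cc s t := by
  have hP := hβ.prob
  have hb := snd_preBM hβ
  have hz := fst_preBM hβ
  have mb : ∀ u : ℝ≥0, MemLp (fun p : E × E => p.2.1 u) 2 (β.prod β) :=
    fun u => (hb.isGaussianProcess.hasGaussianLaw_eval u).memLp_two
  have mz : ∀ u : ℝ≥0, MemLp (fun p : E × E => p.1.1 u) 2 (β.prod β) :=
    fun u => (hz.isGaussianProcess.hasGaussianLaw_eval u).memLp_two
  have hI : ∀ u v : ℝ≥0, cov[fun p : E × E => p.1.1 u, fun p : E × E => p.2.1 v; β.prod β] = 0 :=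
    fun u v => (indepFun_prod (X := fun w : E => w.1 u) (Y := fun w : E => w.1 v)
      (meas_eval _) (meas_eval _)).covariance_eq_zero (mz u) (mb v)
  have e : ∀ t, (fun p => (J p).1 t) =
      (fun p : E × E => p.2.1 t.toNNReal) + (fun p : E × E => p.1.1 (-t).toNNReal) := fun t => by
    ext p
    exact J_eq p t
  rw [e, e, covariance_add_left (mb _) (mz _) ((mb _).add (mz _)),
    covariance_add_right (mb _) (mb _) (mz _), covariance_add_right (mz _) (mb _) (mz _),
    hI, covariance_comm (fun p : E × E => p.2.1 _) (fun p : E × E => p.1.1 _), hI,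
    hb.covariance_fun_eval, hz.covariance_fun_eval, ← cc_eq]
  simp

theorem WW_shift (hβ : IsBeta β) (s : ℝ) : (WW β).map (th s) = WW β := by
  have hP := hβ.prob
  rw [WW, Measure.map_map (meas_th s) meas_J]
  have mJ : ∀ t, MemLp (fun p => (J p).1 t) 2 (β.prod β) := fun t =>
    ((J_gauss hβ).hasGaussianLaw_eval t).memLp_two
  refine law_eq_WW hβ ((meas_th s).comp meas_J) ((J_gauss hβ).shift s) (fun t => ?_)
    (fun t u => ?_)
  · simp only [Function.comp_apply, th_apply]
    rw [integral_sub ((mJ _).integrable (by simp)) ((mJ _).integrable (by simp))]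
    have h1 := J_mean hβ (s + t)
    have h2 := J_mean hβ s
    simp only at h1 h2
    rw [h1, h2, sub_zero]
  · simp only [Function.comp_apply, th_apply]
    have h2 : MemLp (fun p => (J p).1 (s + u) - (J p).1 s) 2 (β.prod β) := (mJ _).sub (mJ _)
    rw [covariance_fun_sub_left (mJ _) (mJ _) h2,
      covariance_fun_sub_right (mJ _) (mJ _) (mJ _), covariance_fun_sub_right (mJ _) (mJ _) (mJ _),
      J_cov hβ, J_cov hβ, J_cov hβ, J_cov hβ]
    unfold cc
    simp only [add_sub_add_left_eq_sub, add_sub_cancel_left, sub_self, abs_zero]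
    have : |s - (s + u)| = |u| := by
      rw [show s - (s + u) = -u by ring, abs_neg]
    rw [this]
    ring

lemma J_law (hβ : IsBeta β) (s : ℝ) : MeasurePreserving (th s) (WW β) (WW β) :=
  ⟨meas_th s, WW_shift hβ s⟩

end Pool.Agent.Lib.MP_5dec12_pr
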