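import Mathlib
import Pool.Agent.Lib.MP_5dec12_pr.Wiener

open MeasureTheory Set Filter ProbabilityTheory
open scoped ENNReal NNReal Topology

namespace Pool.Agent.Lib.MP_5dec12_pr

variable {Ω : Type*} {mΩ : MeasurableSpace Ω} {P : Measure Ω} {β : Measure E}

lemma beta_future (hβ : IsBeta β) (s : ℝ≥0) : β.map (fun b => fwd (th s b)) = β := by
  refine IsBeta.unique (isBeta_of_process (hβ.bm.shift s) (meas_fwd.comp (meas_th _))
    (fun t => ?_) ?_) hβ
  · refine Eventually.of_forall fun w => ?_
    simp [fwd_apply, th_apply]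
  · exact Eventually.of_forall fun w => fwd_fwd _

lemma beta_markov (hβ : IsBeta β) (s : ℝ≥0) :
    β.map (fun b => (stp s b, fwd (th s b))) = (β.map (stp s)).prod β := by
  have hβp := hβ.prob
  have h1 := hβ.bm.indepFun_shift s
  have ms : Measurable (stp s) := meas_stp' measurable_const measurable_id
  have mf : Measurable (fun b => fwd (th s b)) := meas_fwd.comp (meas_th _)
  have h2 : IndepFun (fun b : E => fwd (th s b)) (fun w (t : Iic s) => w.1 (t : ℝ≥0)) β := by
    refine indepFun_E meas_extFun (fun w => ?_) h1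
    ext t
    simp [fwd_apply, th_apply, extFun, Real.coe_toNNReal']
  have h3 : IndepFun (stp s) (fun b : E => fwd (th s b)) β := by
    refine indepFun_E (φ := fun (f : Iic s → ℝ) (t : ℝ) =>
        f ⟨min t.toNNReal s, mem_Iic.2 (min_le_right _ _)⟩)
      (measurable_pi_iff.2 fun t => measurable_pi_apply
        (⟨min t.toNNReal s, mem_Iic.2 (min_le_right _ _)⟩ : Iic s)) (fun w => ?_) h2.symm
    ext t
    simp [stp_apply, Real.coe_toNNReal']
  have h4 := (indepFun_iff_map_prod_eq_prod_map_map ms.aemeasurable mf.aemeasurable).1 h3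
  rwa [beta_future hβ s] at h4

/-- Markov property at a deterministic time `s ≥ 0` -/
lemma markov_at (hβ : IsBeta β) [IsProbabilityMeasure P] {y : Ω → E} (hy : Measurable y)
    (h : P.map (fun ω => (bwd (y ω), fwd (y ω))) = (P.map (fun ω => bwd (y ω))).prod β)
    (s : ℝ≥0) : P.map (fun ω => (bwd (th s (y ω)), fwd (th s (y ω)))) =
      (P.map (fun ω => bwd (th s (y ω)))).prod β := by
  have hβp := hβ.prob
  have ms : Measurable (stp s) := meas_stp' measurable_const measurable_id
  have mf : Measurable (fun b => fwd (th s b)) := meas_fwd.comp (meas_th _)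
  have hyb : Measurable (fun ω => bwd (y ω)) := meas_bwd.comp hy
  have hyf : Measurable (fun ω => fwd (y ω)) := meas_fwd.comp hy
  set lam := P.map (fun ω => bwd (y ω)) with hlam
  have hlp : IsProbabilityMeasure lam := Measure.isProbabilityMeasure_map hyb.aemeasurable
  have hsp : IsProbabilityMeasure (β.map (stp s)) := Measure.isProbabilityMeasure_map ms.aemeasurable
  let K : E × E → E := fun x => bwd (th s (J x))
  have hK : Measurable K := meas_bwd.comp ((meas_th _).comp meas_J)
  have e1 : (fun ω => (bwd (th s (y ω)), fwd (th s (y ω)))) =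
      (Prod.map K id ∘ (MeasurableEquiv.prodAssoc.symm ∘
        (Prod.map id (fun b => (stp s b, fwd (th s b)))))) ∘ (fun ω => (bwd (y ω), fwd (y ω))) := by
    ext1 ω
    simp only [Function.comp_apply, Prod.map, id, K]
    change (bwd (th s (y ω)), fwd (th s (y ω))) =
      (bwd (th s (J (bwd (y ω), stp s (fwd (y ω))))), fwd (th s (fwd (y ω))))
    congr 1
    · refine E.ext' fun t => ?_
      have key : ∀ u : ℝ, u ≤ s → (J (bwd (y ω), stp s (fwd (y ω)))).1 u = (y ω).1 u := by
        intro u hu
        simp only [J_apply, bwd_apply, stp_apply, fwd_apply]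
        have h1 : min (max (max u 0) 0) (s : ℝ) = max u 0 := by
          rw [max_eq_left (le_max_right u 0)]
          exact min_eq_left (max_le hu s.coe_nonneg)
        rw [h1]
        rcases le_total 0 u with h | h
        · have h2 : max (-u) 0 = 0 := max_eq_right (by linarith)
          rw [h2, max_eq_left h, max_eq_left h]
          simp [(y ω).2.2]
        · have h2 : max (-u) 0 = -u := max_eq_left (by linarith)
          rw [h2, max_eq_right h, max_eq_left (by linarith : (0 : ℝ) ≤ -u), neg_neg]
          simp [(y ω).2.2]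
      simp only [bwd_apply, th_apply]
      rw [key _ (by have := le_max_right t 0; linarith), key _ le_rfl]
    · refine E.ext' fun t => ?_
      simp only [fwd_apply, th_apply]
      have h1 : (0 : ℝ) ≤ s := s.coe_nonneg
      have h2 : max ((s : ℝ) + max t 0) 0 = s + max t 0 :=
        max_eq_left (add_nonneg h1 (le_max_right _ _))
      rw [h2, max_eq_left h1]
  have m0 : Measurable (Prod.map (id : E → E) (fun b => (stp s b, fwd (th s b)))) :=
    measurable_id.prodMap (ms.prodMk mf)
  have m1 : Measurable ((MeasurableEquiv.prodAssoc (α := E) (β := E) (γ := E)).symm) :=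
    MeasurableEquiv.measurable _
  have m2 : Measurable (Prod.map K (id : E → E)) := hK.prodMap measurable_id
  have e2 : P.map (fun ω => (bwd (th s (y ω)), fwd (th s (y ω)))) =
      ((lam.prod (β.map (stp s))).map K).prod β := by
    rw [e1, ← Measure.map_map (m2.comp (m1.comp m0)) (hyb.prodMk hyf), h,
      ← Measure.map_map m2 (m1.comp m0), ← Measure.map_map m1 m0,
      ← Measure.map_prod_map _ _ measurable_id (ms.prodMk mf), beta_markov hβ, Measure.map_id,
      ← Measure.prodAssoc_prod, MeasurableEquiv.map_symm_map,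
      ← Measure.map_prod_map _ _ hK measurable_id, Measure.map_id]
  have e3 : P.map (fun ω => bwd (th s (y ω))) = (lam.prod (β.map (stp s))).map K := by
    have hkp : IsProbabilityMeasure ((lam.prod (β.map (stp s))).map K) :=
      Measure.isProbabilityMeasure_map hK.aemeasurable
    have := congrArg (fun ν => ν.map Prod.fst) e2
    simp only [Measure.map_fst_prod, measure_univ, one_smul] at this
    rw [Measure.map_map measurable_fst] at this
    · exact this
    · exact (meas_bwd.comp ((meas_th _).comp hy)).prodMk (meas_fwd.comp ((meas_th _).comp hy))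
  rw [e2, e3]


/-- Consequence of the backward hypothesis: at Lebesgue almost every time the past avoids any
given `β`-null set. -/
lemma past_avoids (hβ : IsBeta β) [IsProbabilityMeasure P] {y : Ω → E} (hy : Measurable y)
    {R : ℕ → Ω → ℝ} (hRm : ∀ n, Measurable (R n))
    (hRt : ∀ᵐ ω ∂P, Tendsto (fun n => R n ω) atTop atTop)
    (hRl : ∀ n, P.map (fun ω => bwd (th (R n ω) (y ω))) = β) {N : Set E} (hN : MeasurableSet N)
    (hN0 : β N = 0) : ∀ᵐ s : ℝ, ∀ᵐ ω ∂P, bwd (th s (y ω)) ∉ N := by
  have hβp := hβ.prob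
  have mb : ∀ n, Measurable (fun ω => bwd (th (R n ω) (y ω))) := fun n =>
    meas_bwd.comp (meas_th' (hRm n) hy)
  have h1 : ∀ n, ∀ u : ℝ, ∀ᵐ ω ∂P, 0 ≤ u → bwd (th (R n ω - u) (y ω)) ∉ N := by
    intro n u
    by_cases hu : 0 ≤ u
    · have e1 : ∀ ω, bwd (th (R n ω - u) (y ω)) = fwd (th u (bwd (th (R n ω) (y ω)))) := by
        intro ω
        refine E.ext' fun t => ?_
        simp only [bwd_apply, th_apply, fwd_apply]
        have h2 : max (u + max t 0) 0 = u + max t 0 :=
          max_eq_left (add_nonneg hu (le_max_right _ _))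
        rw [h2, max_eq_left hu]
        rw [show R n ω - u + -max t 0 = R n ω + -(u + max t 0) by ring,
          show R n ω - u = R n ω + -u by ring]
        ring
      have e2 : ∀ᵐ b ∂β, fwd (th u b) ∉ N := by
        have h3 : β.map (fun b => fwd (th u b)) = β := beta_future hβ ⟨u, hu⟩
        have h4 : (β.map (fun b => fwd (th u b))) N = 0 := by
          rw [h3]
          exact hN0
        have mf : Measurable (fun b => fwd (th u b)) := meas_fwd.comp (meas_th _)
        rw [Measure.map_apply mf hN] at h4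
        rw [ae_iff]
        simp only [not_not]
        exact h4
      have e3 : ∀ᵐ ω ∂P, fwd (th u (bwd (th (R n ω) (y ω)))) ∉ N := by
        rw [← hRl n] at e2
        exact ae_of_ae_map (mb n).aemeasurable e2
      filter_upwards [e3] with ω hω _
      rw [e1]
      exact hω
    · exact Eventually.of_forall fun ω h => absurd h hu
  have h2 : ∀ n, ∀ᵐ ω ∂P, ∀ᵐ r : ℝ, r ≤ R n ω → bwd (th r (y ω)) ∉ N := by
    intro n
    have hms : MeasurableSet {x : ℝ × Ω | 0 ≤ x.1 → bwd (th (R n x.2 - x.1) (y x.2)) ∉ N} := by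
      have m1 : MeasurableSet {x : ℝ × Ω | 0 ≤ x.1} := measurableSet_le measurable_const
        measurable_fst
      have m2 : Measurable (fun x : ℝ × Ω => bwd (th (R n x.2 - x.1) (y x.2))) :=
        meas_bwd.comp (meas_th' (((hRm n).comp measurable_snd).sub measurable_fst)
          (hy.comp measurable_snd))
      have : {x : ℝ × Ω | 0 ≤ x.1 → bwd (th (R n x.2 - x.1) (y x.2)) ∉ N} =
          {x : ℝ × Ω | 0 ≤ x.1}ᶜ ∪ ((fun x : ℝ × Ω => bwd (th (R n x.2 - x.1) (y x.2))) ⁻¹' N)ᶜ := by
        ext x
        simp only [mem_ofPred_eq, mem_union, mem_compl_iff, mem_preimage]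
        tauto
      rw [this]
      exact m1.compl.union (m2 hN).compl
    have h3 : ∀ᵐ ω ∂P, ∀ᵐ u : ℝ, 0 ≤ u → bwd (th (R n ω - u) (y ω)) ∉ N :=
      (Measure.ae_ae_comm hms).1 (Eventually.of_forall (h1 n))
    filter_upwards [h3] with ω hω
    have h4 := (Measure.measurePreserving_sub_left volume (R n ω)).quasiMeasurePreserving.ae hω
    filter_upwards [h4] with r hr hle
    have := hr (by linarith)
    rwa [sub_sub_cancel] at this
  have h3 : ∀ᵐ ω ∂P, ∀ᵐ r : ℝ, bwd (th r (y ω)) ∉ N := by
    filter_upwards [ae_all_iff.2 h2, hRt] with ω hω ht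
    filter_upwards [ae_all_iff.2 hω] with r hr
    obtain ⟨n, hn⟩ := (ht.eventually_ge_atTop r).exists
    exact hr n hn
  have hms : MeasurableSet {x : Ω × ℝ | bwd (th x.2 (y x.1)) ∉ N} :=
    ((meas_bwd.comp (meas_th' measurable_snd (hy.comp measurable_fst))) hN).compl
  exact (Measure.ae_ae_comm hms).1 h3

/-- the smeared law of the path is absolutely continuous w.r.t. two-sided Wiener measure -/
theorem smear_ac (hβ : IsBeta β) [IsProbabilityMeasure P] {y : Ω → E} (hy : Measurable y)
    (h : P.map (fun ω => (bwd (y ω), fwd (y ω))) = (P.map (fun ω => bwd (y ω))).prod β)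
    {R : ℕ → Ω → ℝ} (hRm : ∀ n, Measurable (R n))
    (hRt : ∀ᵐ ω ∂P, Tendsto (fun n => R n ω) atTop atTop)
    (hRl : ∀ n, P.map (fun ω => bwd (th (R n ω) (y ω))) = β) :
    (P.prod (volume.restrict (Icc (0 : ℝ) 1))).map (fun q => th q.2 (y q.1)) ≪ WW β := by
  have hβp := hβ.prob
  have mθ : Measurable (fun q : Ω × ℝ => th q.2 (y q.1)) :=
    meas_th' measurable_snd (hy.comp measurable_fst)
  refine Measure.AbsolutelyContinuous.mk fun N' hN' h0 => ?_
  rw [Measure.map_apply mθ hN', Measure.prod_apply_symm (mθ hN')]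
  rw [lintegral_eq_zero_iff (measurable_measure_prodMk_right (mθ hN'))]
  -- the exceptional set of pasts
  rw [WW, Measure.map_apply meas_J hN'] at h0
  rw [Measure.measure_prod_null (meas_J hN')] at h0
  set N : Set E := {z | β (Prod.mk z ⁻¹' (J ⁻¹' N')) ≠ 0} with hNdef
  have hN : MeasurableSet N := by
    have := measurable_measure_prodMk_left (ν := β) (meas_J hN')
    exact (this (measurableSet_singleton 0)).compl
  have hN0 : β N = 0 := by
    rw [hNdef]
    exact h0
  have h1 := past_avoids hβ hy hRm hRt hRl hN hN0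
  refine (ae_restrict_iff' measurableSet_Icc).2 ?_
  filter_upwards [h1] with s hs hs01
  have hs0 : 0 ≤ s := hs01.1
  have hm := markov_at hβ hy h ⟨s, hs0⟩
  have e1 : (fun x => (x, s)) ⁻¹' ((fun q : Ω × ℝ => th q.2 (y q.1)) ⁻¹' N') =
      (fun ω => (bwd (th s (y ω)), fwd (th s (y ω)))) ⁻¹' (J ⁻¹' N') := by
    ext ω
    simp only [mem_preimage, J_bwd_fwd]
  have hmb : Measurable (fun ω => bwd (th s (y ω))) := meas_bwd.comp ((meas_th _).comp hy)
  have hmf : Measurable (fun ω => fwd (th s (y ω))) := meas_fwd.comp ((meas_th _).comp hy)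
  have hm' : P.map (fun ω => (bwd (th s (y ω)), fwd (th s (y ω)))) =
      (P.map (fun ω => bwd (th s (y ω)))).prod β := hm
  rw [e1, ← Measure.map_apply (hmb.prodMk hmf) (meas_J hN'), hm']
  simp only [Pi.zero_apply]
  rw [Measure.measure_prod_null (meas_J hN')]
  have h2 : ∀ᵐ z ∂(P.map (fun ω => bwd (th s (y ω)))), z ∉ N := by
    rw [ae_map_iff hmb.aemeasurable hN.compl]
    exact hs
  filter_upwards [h2] with z hz
  by_contra hne
  exact hz hne

end Pool.Agent.Lib.MP_5dec12_pr
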