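import Mathlib

open MeasureTheory Set Filter
open scoped ENNReal NNReal Topology

namespace Pool.Agent.Lib.MP_5dec12_pr

variable {X : Type*} [MeasurableSpace X]

/-- The measure obtained by moving the portion `a k` of `ρ` by the map `T k`. -/
noncomputable def push (ρ : Measure X) (T : ℕ → X → X) (a : ℕ → X → ℝ≥0∞) : Measure X :=
  Measure.sum (fun k => (ρ.withDensity (a k)).map (T k))

/-- Admissible randomised stopping weights. -/
structure Adm (ρ μ : Measure X) (T : ℕ → X → X) (a : ℕ → X → ℝ≥0∞) : Prop where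
  meas : ∀ k, Measurable (a k)
  le_one : ∀ x, ∑' k, a k x ≤ 1
  le : push ρ T a ≤ μ

/-- Averaging property. -/
def AvgProp (μ : Measure X) (T : ℕ → X → X) : Prop :=
  ∀ ρ : Measure X, IsFiniteMeasure ρ → ρ ≪ μ → ∀ ε : ℝ≥0∞, ε ≠ 0 →
    ∃ K : ℕ, K ≠ 0 ∧ ∃ j : ℕ → ℕ, ∃ e : Measure X, e univ ≤ ε ∧
      (ρ univ) • μ ≤ (K : ℝ≥0∞)⁻¹ • (∑ i ∈ Finset.range K, ρ.map (T (j i))) + e

lemma push_apply {ρ : Measure X} {T : ℕ → X → X} (hT : ∀ k, Measurable (T k))
    {a : ℕ → X → ℝ≥0∞} (ha : ∀ k, Measurable (a k)) {A : Set X} (hA : MeasurableSet A) :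
    push ρ T a A = ∫⁻ x, ∑' k, (T k ⁻¹' A).indicator (a k) x ∂ρ := by
  unfold push
  rw [Measure.sum_apply _ hA, lintegral_tsum]
  · congr 1
    ext k
    rw [Measure.map_apply (hT k) hA, withDensity_apply _ (hT k hA),
      lintegral_indicator (hT k hA)]
  · intro k
    exact ((ha k).indicator (hT k hA)).aemeasurable

lemma push_univ {ρ : Measure X} {T : ℕ → X → X} (hT : ∀ k, Measurable (T k))
    {a : ℕ → X → ℝ≥0∞} (ha : ∀ k, Measurable (a k)) :
    push ρ T a univ = ∫⁻ x, ∑' k, a k x ∂ρ := by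
  rw [push_apply hT ha MeasurableSet.univ]
  simp

lemma map_withDensity_comp {ρ : Measure X} {S : X → X} (hS : Measurable S) {κ : X → ℝ≥0∞}
    (hκ : Measurable κ) : (ρ.withDensity (κ ∘ S)).map S = (ρ.map S).withDensity κ := by
  ext A hA
  rw [Measure.map_apply hS hA, withDensity_apply _ (hS hA), withDensity_apply _ hA,
    setLIntegral_map hA hκ hS]
  rfl

/-- adding finitely many extra weights -/
noncomputable def addW (a : ℕ → X → ℝ≥0∞) (K : ℕ) (j : ℕ → ℕ) (b : ℕ → X → ℝ≥0∞) :
    ℕ → X → ℝ≥0∞ :=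
  fun k x => a k x + ∑ i ∈ Finset.range K, if k = j i then b i x else 0

omit [MeasurableSpace X] in
lemma addW_tsum (a : ℕ → X → ℝ≥0∞) (K : ℕ) (j : ℕ → ℕ) (b : ℕ → X → ℝ≥0∞) (x : X) :
    ∑' k, addW a K j b k x = ∑' k, a k x + ∑ i ∈ Finset.range K, b i x := by
  unfold addW
  rw [ENNReal.tsum_add]
  congr 1
  rw [Summable.tsum_finsetSum (fun i _ => ENNReal.summable)]
  refine Finset.sum_congr rfl fun i _ => ?_
  rw [tsum_ite_eq]

lemma addW_meas {a : ℕ → X → ℝ≥0∞} (ha : ∀ k, Measurable (a k)) (K : ℕ) (j : ℕ → ℕ)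
    {b : ℕ → X → ℝ≥0∞} (hb : ∀ k, Measurable (b k)) (k : ℕ) : Measurable (addW a K j b k) := by
  unfold addW
  refine (ha k).add (Finset.measurable_sum _ fun i _ => ?_)
  split_ifs
  · exact hb i
  · exact measurable_const

lemma addW_push {ρ : Measure X} {T : ℕ → X → X} (hT : ∀ k, Measurable (T k))
    {a : ℕ → X → ℝ≥0∞} (ha : ∀ k, Measurable (a k)) (K : ℕ) (j : ℕ → ℕ)
    {b : ℕ → X → ℝ≥0∞} (hb : ∀ k, Measurable (b k)) :
    push ρ T (addW a K j b) =
      push ρ T a + ∑ i ∈ Finset.range K, (ρ.withDensity (b i)).map (T (j i)) := by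
  ext A hA
  rw [push_apply hT (addW_meas ha K j hb) hA, Measure.add_apply, push_apply hT ha hA]
  have h1 : ∀ x, ∑' k, (T k ⁻¹' A).indicator (addW a K j b k) x =
      ∑' k, (T k ⁻¹' A).indicator (a k) x +
        ∑ i ∈ Finset.range K, (T (j i) ⁻¹' A).indicator (b i) x := by
    intro x
    have h2 : ∀ k, (T k ⁻¹' A).indicator (addW a K j b k) x =
        addW (fun k => (T k ⁻¹' A).indicator (a k)) K j
          (fun i => (T (j i) ⁻¹' A).indicator (b i)) k x := by
      intro k
      unfold addW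
      beta_reduce
      by_cases hx : x ∈ T k ⁻¹' A
      · rw [indicator_of_mem hx, indicator_of_mem hx]
        congr 1
        refine Finset.sum_congr rfl fun i _ => ?_
        split_ifs with hk
        · subst hk
          rw [indicator_of_mem hx]
        · rfl
      · rw [indicator_of_notMem hx, indicator_of_notMem hx, zero_add]
        symm
        refine Finset.sum_eq_zero fun i _ => ?_
        split_ifs with hk
        · subst hk
          rw [indicator_of_notMem hx]
        · rfl
    rw [tsum_congr h2, addW_tsum]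
  simp_rw [h1]
  rw [lintegral_add_left]
  · congr 1
    rw [lintegral_finsetSum']
    · rw [Measure.coe_finsetSum, Finset.sum_apply]
      refine Finset.sum_congr rfl fun i _ => ?_
      rw [Measure.map_apply (hT _) hA, withDensity_apply _ (hT _ hA),
        lintegral_indicator (hT _ hA)]
    · intro i _
      exact ((hb i).indicator (hT _ hA)).aemeasurable
  · exact Measurable.tsum fun k => (ha k).indicator (hT k hA)


lemma withDensity_finset_sum {ι : Type*} (s : Finset ι) (m : ι → Measure X) (κ : X → ℝ≥0∞) :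
    (∑ i ∈ s, m i).withDensity κ = ∑ i ∈ s, (m i).withDensity κ := by
  classical
  induction s using Finset.induction_on with
  | empty => simp
  | insert i s hi ih => rw [Finset.sum_insert hi, Finset.sum_insert hi, withDensity_add_measure, ih]

lemma improve {ρ μ : Measure X} [IsProbabilityMeasure ρ] [IsProbabilityMeasure μ]
    {T : ℕ → X → X} (hT : ∀ k, Measurable (T k)) (hTμ : ∀ k, μ.map (T k) ≪ μ)
    (hρ : ρ ≪ μ) (hE : AvgProp μ T) {a : ℕ → X → ℝ≥0∞} (ha : Adm ρ μ T a) :
    ∃ a', Adm ρ μ T a' ∧ (∀ k x, a k x ≤ a' k x) ∧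
      push ρ T a univ + (1 - push ρ T a univ) ^ 2 / 2 ≤ push ρ T a' univ := by
  set η := 1 - push ρ T a univ with hη
  have hm1 : push ρ T a univ ≤ 1 := by
    have := ha.le univ
    simpa using this
  have hη1 : η ≤ 1 := tsub_le_self
  have hηtop : η ≠ ∞ := ne_top_of_le_ne_top ENNReal.one_ne_top hη1
  by_cases hη0 : η = 0
  · exact ⟨a, ha, fun _ _ => le_rfl, by rw [hη0]; simp⟩
  set s : X → ℝ≥0∞ := fun x => ∑' k, a k x with hs
  have hsm : Measurable s := Measurable.tsum ha.meas
  set r : X → ℝ≥0∞ := fun x => 1 - s x with hr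
  have hrm : Measurable r := measurable_const.sub hsm
  set ρ1 := ρ.withDensity r with hρ1
  have hρ1u : ρ1 univ = η := by
    rw [hρ1, withDensity_apply _ MeasurableSet.univ, Measure.restrict_univ, hη, push_univ hT ha.meas]
    rw [hr]
    simp only
    rw [lintegral_sub hsm]
    · simp
      rfl
    · rw [← push_univ hT ha.meas]
      exact ne_top_of_le_ne_top ENNReal.one_ne_top hm1
    · exact Eventually.of_forall ha.le_one
  have hρ1f : IsFiniteMeasure ρ1 := ⟨by rw [hρ1u]; exact hηtop.lt_top⟩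
  have hρ1ac : ρ1 ≪ μ := (withDensity_absolutelyContinuous _ _).trans hρ
  set ε : ℝ≥0∞ := η ^ 2 / 2 with hε
  have hε0 : ε ≠ 0 := by
    rw [hε]
    simp [hη0]
  obtain ⟨K, hK, j, e, he, hKe⟩ := hE ρ1 hρ1f hρ1ac ε hε0
  have hK' : (K : ℝ≥0∞) ≠ 0 := by exact_mod_cast hK
  have hKt : (K : ℝ≥0∞) ≠ ∞ := ENNReal.natCast_ne_top K
  set σ := (K : ℝ≥0∞)⁻¹ • (∑ i ∈ Finset.range K, ρ1.map (T (j i))) with hσ
  have hσac : σ ≪ μ := by
    rw [hσ]
    refine Measure.AbsolutelyContinuous.smul_left ?_ _
    intro A hA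
    rw [Measure.coe_finsetSum, Finset.sum_apply]
    refine Finset.sum_eq_zero fun i _ => ?_
    exact ((hρ1ac.map (hT _)).trans (hTμ _)) hA
  have hσf : IsFiniteMeasure σ := by
    constructor
    rw [hσ, Measure.smul_apply, Measure.coe_finsetSum, Finset.sum_apply, smul_eq_mul]
    refine ENNReal.mul_lt_top (ENNReal.inv_lt_top.2 (pos_iff_ne_zero.2 hK')) ?_
    refine ENNReal.sum_lt_top.2 fun i _ => ?_
    exact measure_lt_top _ _
  set g := σ.rnDeriv μ with hg
  have hgm : Measurable g := Measure.measurable_rnDeriv _ _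
  have hσg : μ.withDensity g = σ := Measure.withDensity_rnDeriv_eq _ _ hσac
  have hgt : ∀ᵐ x ∂μ, g x < ∞ := Measure.rnDeriv_lt_top _ _
  have hνf : IsFiniteMeasure (push ρ T a) := ⟨lt_of_le_of_lt hm1 (by simp)⟩
  set μ1 := μ - push ρ T a with hμ1
  have hμ1a : μ1 + push ρ T a = μ := Measure.sub_add_cancel_of_le ha.le
  have hμ1u : μ1 univ = η := by
    rw [hμ1, Measure.sub_apply MeasurableSet.univ ha.le, measure_univ]
  have hμ1le : μ1 ≤ μ := Measure.sub_le
  have hμ1f : IsFiniteMeasure μ1 := ⟨by rw [hμ1u]; exact hηtop.lt_top⟩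
  set u := μ1.rnDeriv μ with hu
  have hum : Measurable u := Measure.measurable_rnDeriv _ _
  have hμ1u' : μ.withDensity u = μ1 :=
    Measure.withDensity_rnDeriv_eq _ _ (Measure.absolutelyContinuous_of_le hμ1le)
  set κ : X → ℝ≥0∞ := fun x => min (g x) (u x) / g x with hκ
  have hκm : Measurable κ := (hgm.min hum).div hgm
  have hκ1 : ∀ x, κ x ≤ 1 := fun x => ENNReal.div_le_of_le_mul (by simp)
  have hgκ : (fun x => g x * κ x) =ᵐ[μ] fun x => min (g x) (u x) := by
    filter_upwards [hgt] with x hx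
    rw [hκ]
    simp only
    by_cases h0 : g x = 0
    · simp [h0]
    · exact ENNReal.mul_div_cancel h0 hx.ne
  set b : ℕ → X → ℝ≥0∞ := fun i x => (K : ℝ≥0∞)⁻¹ * (r x * κ (T (j i) x)) with hb
  have hbm : ∀ i, Measurable (b i) := fun i =>
    measurable_const.mul (hrm.mul (hκm.comp (hT _)))
  have hadd : ∑ i ∈ Finset.range K, (ρ.withDensity (b i)).map (T (j i)) =
      μ.withDensity (fun x => min (g x) (u x)) := by
    have h1 : ∀ i, (ρ.withDensity (b i)).map (T (j i)) =
        (K : ℝ≥0∞)⁻¹ • (ρ1.map (T (j i))).withDensity κ := by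
      intro i
      rw [← map_withDensity_comp (hT _) hκm, hρ1, ← withDensity_mul _ hrm (hκm.comp (hT _)),
        ← Measure.map_smul, ← withDensity_smul _ (hrm.mul (hκm.comp (hT _)))]
      rfl
    rw [Finset.sum_congr rfl fun i _ => h1 i, ← withDensity_congr_ae hgκ]
    have h2 : μ.withDensity (fun x => g x * κ x) = σ.withDensity κ := by
      rw [← hσg, ← withDensity_mul _ hgm hκm]
      rfl
    rw [h2, hσ, withDensity_smul_measure, withDensity_finset_sum, Finset.smul_sum]
  refine ⟨addW a K j b, ⟨addW_meas ha.meas K j hbm, ?_, ?_⟩, ?_, ?_⟩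
  · intro x
    rw [addW_tsum]
    have h1 : ∑ i ∈ Finset.range K, b i x ≤ r x := by
      calc ∑ i ∈ Finset.range K, b i x ≤ ∑ i ∈ Finset.range K, (K : ℝ≥0∞)⁻¹ * r x := by
            refine Finset.sum_le_sum fun i _ => ?_
            rw [hb]
            simp only
            gcongr
            calc r x * κ (T (j i) x) ≤ r x * 1 := by gcongr; exact hκ1 _
              _ = r x := mul_one _
        _ = r x := by
            rw [Finset.sum_const, Finset.card_range, nsmul_eq_mul, ← mul_assoc,
              ENNReal.mul_inv_cancel hK' hKt, one_mul]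
    calc ∑' k, a k x + ∑ i ∈ Finset.range K, b i x ≤ s x + r x := by
          gcongr
      _ = 1 := by
          rw [hr]
          simp only
          exact add_tsub_cancel_of_le (ha.le_one x)
  · rw [addW_push hT ha.meas K j hbm, hadd]
    calc push ρ T a + μ.withDensity (fun x => min (g x) (u x)) ≤ push ρ T a + μ1 := by
          gcongr
          rw [← hμ1u']
          exact withDensity_mono (Eventually.of_forall fun x => min_le_right _ _)
      _ = μ := by rw [add_comm, hμ1a]
  · intro k x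
    unfold addW
    exact le_self_add
  · rw [addW_push hT ha.meas K j hbm, hadd, Measure.add_apply]
    gcongr
    have hA : MeasurableSet {x | g x ≤ u x} := measurableSet_le hgm hum
    set A := {x | g x ≤ u x} with hAdef
    have h1 : μ.withDensity (fun x => min (g x) (u x)) univ = σ A + μ1 Aᶜ := by
      rw [← measure_add_measure_compl hA, withDensity_apply _ hA, withDensity_apply _ hA.compl,
        ← hσg, ← hμ1u', withDensity_apply _ hA, withDensity_apply _ hA.compl]
      congr 1
      · refine setLIntegral_congr_fun hA fun x hx => ?_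
        exact min_eq_left hx
      · refine setLIntegral_congr_fun hA.compl fun x hx => ?_
        have hx' : ¬ g x ≤ u x := hx
        exact min_eq_right (not_le.1 hx').le
    rw [h1]
    have h2 : η * μ1 A ≤ σ A + ε := by
      calc η * μ1 A ≤ η * μ A := by gcongr
        _ = (ρ1 univ • μ) A := by rw [hρ1u]; rfl
        _ ≤ (σ + e) A := hKe A
        _ = σ A + e A := rfl
        _ ≤ σ A + ε := by
            gcongr
            exact (measure_mono (subset_univ _)).trans he
    have h3 : η * μ1 Aᶜ ≤ μ1 Aᶜ := by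
      calc η * μ1 Aᶜ ≤ 1 * μ1 Aᶜ := by gcongr
        _ = μ1 Aᶜ := one_mul _
    have h4 : η ^ 2 ≤ (σ A + μ1 Aᶜ) + ε := by
      calc η ^ 2 = η * μ1 univ := by rw [hμ1u, sq]
        _ = η * μ1 A + η * μ1 Aᶜ := by rw [← measure_add_measure_compl hA, mul_add]
        _ ≤ (σ A + ε) + μ1 Aᶜ := add_le_add h2 h3
        _ = (σ A + μ1 Aᶜ) + ε := by ring
    have h5 : η ^ 2 / 2 + η ^ 2 / 2 = η ^ 2 := ENNReal.add_halves _
    have hεt : ε ≠ ∞ := by
      rw [hε]
      exact (ENNReal.div_lt_top (ENNReal.pow_ne_top hηtop) (by simp)).ne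
    rw [← h5] at h4
    exact (ENNReal.add_le_add_iff_right hεt).1 h4


/-- **Shift coupling**: the weights transport `ρ` onto `μ`. -/
theorem exists_weights {ρ μ : Measure X} [IsProbabilityMeasure ρ] [IsProbabilityMeasure μ]
    {T : ℕ → X → X} (hT : ∀ k, Measurable (T k)) (hTμ : ∀ k, μ.map (T k) ≪ μ)
    (hρ : ρ ≪ μ) (hE : AvgProp μ T) :
    ∃ a : ℕ → X → ℝ≥0∞, (∀ k, Measurable (a k)) ∧ (∀ᵐ x ∂ρ, ∑' k, a k x = 1) ∧
      push ρ T a = μ := by
  classical
  have h0 : Adm ρ μ T (fun _ _ => 0) := by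
    refine ⟨fun _ => measurable_const, fun x => by simp, ?_⟩
    unfold push
    simp
    exact Measure.zero_le _
  -- the improving sequence
  let nxt : {a : ℕ → X → ℝ≥0∞ // Adm ρ μ T a} → {a : ℕ → X → ℝ≥0∞ // Adm ρ μ T a} :=
    fun a => ⟨Classical.choose (improve hT hTμ hρ hE a.2),
      (Classical.choose_spec (improve hT hTμ hρ hE a.2)).1⟩
  have hn1 : ∀ a, ∀ k x, a.1 k x ≤ (nxt a).1 k x := fun a =>
    (Classical.choose_spec (improve hT hTμ hρ hE a.2)).2.1
  have hn2 : ∀ a, push ρ T a.1 univ + (1 - push ρ T a.1 univ) ^ 2 / 2 ≤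
      push ρ T (nxt a).1 univ := fun a =>
    (Classical.choose_spec (improve hT hTμ hρ hE a.2)).2.2
  let q : ℕ → {a : ℕ → X → ℝ≥0∞ // Adm ρ μ T a} := fun n => nxt^[n] ⟨fun _ _ => 0, h0⟩
  have hq : ∀ n, q (n + 1) = nxt (q n) := fun n => Function.iterate_succ_apply' _ _ _
  have hqmono : ∀ k x, Monotone fun n => (q n).1 k x := by
    intro k x
    refine monotone_nat_of_le_succ fun n => ?_
    rw [hq]
    exact hn1 _ _ _
  let a : ℕ → X → ℝ≥0∞ := fun k x => ⨆ n, (q n).1 k x
  have ham : ∀ k, Measurable (a k) := fun k => Measurable.iSup fun n => (q n).2.meas k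
  have hmass : ∀ n, push ρ T (q n).1 univ ≤ 1 := fun n => by
    have := (q n).2.le univ
    simpa using this
  have hsum : ∀ (f : ℕ → ℝ≥0∞ → ℝ≥0∞) (hf : ∀ k, f k = id ∨ f k = fun _ => 0) (x : X),
      ∑' k, f k (a k x) = ⨆ n, ∑' k, f k ((q n).1 k x) := by
    intro f hf x
    have hf1 : ∀ k, f k (a k x) = ⨆ n, f k ((q n).1 k x) := by
      intro k
      rcases hf k with h | h
      · rw [h]; rfl
      · rw [h]; simp
    simp_rw [hf1]
    rw [← lintegral_count, ]
    rw [lintegral_iSup]
    · simp_rw [lintegral_count]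
    · intro n
      exact measurable_from_top
    · intro m n hmn k
      simp only
      rcases hf k with h | h
      · rw [h]; exact hqmono k x hmn
      · rw [h]
  have hpa : ∀ A, MeasurableSet A → push ρ T a A = ⨆ n, push ρ T (q n).1 A := by
    intro A hA
    rw [push_apply hT ham hA]
    have h1 : ∀ x, ∑' k, (T k ⁻¹' A).indicator (a k) x =
        ⨆ n, ∑' k, (T k ⁻¹' A).indicator ((q n).1 k) x := by
      intro x
      have := hsum (fun k => if x ∈ T k ⁻¹' A then id else fun _ => 0) (fun k => by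
        by_cases h : x ∈ T k ⁻¹' A
        · left; simp only [h, if_true]
        · right; simp only [h, if_false]) x
      have h2 : ∀ (c : ℕ → X → ℝ≥0∞) k, (T k ⁻¹' A).indicator (c k) x =
          (if x ∈ T k ⁻¹' A then id else fun _ => 0) (c k x) := by
        intro c k
        by_cases h : x ∈ T k ⁻¹' A
        · rw [indicator_of_mem h, if_pos h]; rfl
        · rw [indicator_of_notMem h, if_neg h]
      simp_rw [h2]
      exact this
    simp_rw [h1]
    rw [lintegral_iSup]
    · congr 1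
      ext n
      rw [push_apply hT (q n).2.meas hA]
    · intro n
      exact Measurable.tsum fun k => ((q n).2.meas k).indicator (hT k hA)
    · intro m n hmn x
      simp only
      refine ENNReal.tsum_le_tsum fun k => ?_
      exact indicator_le_indicator (hqmono k x hmn)
  have hle : push ρ T a ≤ μ := by
    rw [Measure.le_iff]
    intro A hA
    rw [hpa A hA]
    exact iSup_le fun n => (q n).2.le A
  have hone : push ρ T a univ = 1 := by
    set m := push ρ T a univ with hm
    have hm1 : m ≤ 1 := by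
      have := hle univ
      simpa using this
    have hmsup : m = ⨆ n, push ρ T (q n).1 univ := hpa univ MeasurableSet.univ
    have h3 : ∀ n, push ρ T (q n).1 univ + (1 - m) ^ 2 / 2 ≤ m := by
      intro n
      calc push ρ T (q n).1 univ + (1 - m) ^ 2 / 2
          ≤ push ρ T (q n).1 univ + (1 - push ρ T (q n).1 univ) ^ 2 / 2 := by
            gcongr
            rw [hmsup]
            exact le_iSup (fun n => push ρ T (q n).1 univ) n
        _ ≤ push ρ T (nxt (q n)).1 univ := hn2 _
        _ = push ρ T (q (n + 1)).1 univ := by rw [hq]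
        _ ≤ m := by rw [hmsup]; exact le_iSup (fun n => push ρ T (q n).1 univ) (n + 1)
    have h4 : m + (1 - m) ^ 2 / 2 ≤ m := by
      have h4' : (⨆ n, push ρ T (q n).1 univ) + (1 - m) ^ 2 / 2 ≤ m := by
        rw [ENNReal.iSup_add]
        exact iSup_le h3
      rwa [← hmsup] at h4'
    have hmt : m ≠ ∞ := ne_top_of_le_ne_top ENNReal.one_ne_top hm1
    have h5 : (1 - m) ^ 2 / 2 = 0 := by
      by_contra hne
      have : m < m + (1 - m) ^ 2 / 2 := ENNReal.lt_add_right hmt hne
      exact absurd h4 (not_le.2 this)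
    have h6 : 1 - m = 0 := by simpa using h5
    exact le_antisymm hm1 (tsub_eq_zero_iff_le.1 h6)
  have heq : push ρ T a = μ := by
    haveI : IsFiniteMeasure (push ρ T a) := ⟨by rw [hone]; simp⟩
    exact Measure.eq_of_le_of_measure_univ_eq hle (by rw [hone, measure_univ])
  refine ⟨a, ham, ?_, heq⟩
  have hle1 : ∀ x, ∑' k, a k x ≤ 1 := by
    intro x
    have := hsum (fun _ => id) (fun _ => Or.inl rfl) x
    simp only [id] at this
    rw [this]
    exact iSup_le fun n => (q n).2.le_one x
  have h7 : ∫⁻ x, ∑' k, a k x ∂ρ = 1 := by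
    rw [← push_univ hT ham, hone]
  have h8 : ∫⁻ x, (1 - ∑' k, a k x) ∂ρ = 0 := by
    rw [lintegral_sub (Measurable.tsum ham) (by rw [h7]; simp) (Eventually.of_forall hle1), h7]
    simp
  have h9 : Measurable fun x => 1 - ∑' k, a k x := measurable_const.sub (Measurable.tsum ham)
  rw [lintegral_eq_zero_iff h9] at h8
  filter_upwards [h8] with x hx
  exact le_antisymm (hle1 x) (tsub_eq_zero_iff_le.1 hx)

end Pool.Agent.Lib.MP_5dec12_pr
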