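import Mathlib
import Pool.Agent.Lib.MP_5dec12_pr.Wiener
import Pool.Agent.Lib.MP_5dec12_pr.ShiftCoupling

open MeasureTheory Set Filter ProbabilityTheory
open scoped ENNReal NNReal Topology

namespace Pool.Agent.Lib.MP_5dec12_pr

variable {β : Measure E}

/-- restriction of a path to a window -/
def clip (M : ℕ) (w : E) : E :=
  ⟨fun t => w.1 (max (min t M) (-M)), by
    have := w.2.1
    fun_prop, by simp [w.2.2]⟩

lemma clip_apply (M : ℕ) (w : E) (t : ℝ) : (clip M w).1 t = w.1 (max (min t M) (-M)) := rfl

lemma meas_clip (M : ℕ) : Measurable (clip M) := meas_E fun _ => meas_eval _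

lemma clip_clip {n m : ℕ} (h : n ≤ m) (w : E) : clip n (clip m w) = clip n w := by
  refine E.ext' fun t => ?_
  have hnm : (n : ℝ) ≤ m := by exact_mod_cast h
  have hn : (0 : ℝ) ≤ n := by positivity
  simp only [clip_apply]
  have h1 : max (min t (n : ℝ)) (-n) ≤ m := max_le ((min_le_right _ _).trans hnm) (by linarith)
  have h2 : -(m : ℝ) ≤ max (min t (n : ℝ)) (-n) := le_max_of_le_right (by linarith)
  rw [min_eq_left h1, max_eq_left h2]

/-- window filtration -/
def winF : Filtration ℕ (inferInstance : MeasurableSpace E) where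
  seq n := MeasurableSpace.comap (clip n) inferInstance
  mono' := by
    intro n m h
    have : clip n = clip n ∘ clip m := by
      ext1 w
      exact (clip_clip h w).symm
    change MeasurableSpace.comap (clip n) inferInstance ≤ MeasurableSpace.comap (clip m) inferInstance
    rw [this, ← MeasurableSpace.comap_comp]
    exact MeasurableSpace.comap_mono (meas_clip n).comap_le
  le' n := (meas_clip n).comap_le

lemma winF_iSup : (inferInstance : MeasurableSpace E) ≤ ⨆ n, winF n := by
  have h : @Measurable E E (⨆ n, winF n) inferInstance id := by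
    refine @meas_E E (⨆ n, winF n) id fun t => ?_
    obtain ⟨n, hn⟩ := exists_nat_ge |t|
    have h1 : @Measurable E ℝ (winF n) inferInstance (fun w : E => w.1 t) := by
      have h2 : (fun w : E => w.1 t) = (fun w : E => w.1 t) ∘ clip n := by
        ext w
        simp only [Function.comp_apply, clip_apply]
        rw [min_eq_left ((le_abs_self t).trans hn), max_eq_left (by
          have := neg_abs_le t; linarith)]
      rw [h2]
      exact (meas_eval t).comp (comap_measurable _)
    exact h1.mono (le_iSup (fun n => winF n) n) le_rfl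
  intro A hA
  exact h hA

lemma WW_indep (hβ : IsBeta β) (s : ℝ) :
    IndepFun (fun w => bwd (th s w)) (fun w => fwd (th s w)) (WW β) := by
  have := hβ.prob
  have := WW_prob hβ
  have h := WW_bwd_fwd hβ
  have h2 : (WW β).map (fun w => (bwd (th s w), fwd (th s w))) = β.prod β := by
    rw [← h]
    conv_rhs => rw [← WW_shift hβ s]
    rw [Measure.map_map (meas_bwd.prodMk meas_fwd) (meas_th s)]
    rfl
  have m1 : Measurable (fun w => bwd (th s w)) := meas_bwd.comp (meas_th s)
  have m2 : Measurable (fun w => fwd (th s w)) := meas_fwd.comp (meas_th s)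
  have e1 : (WW β).map (fun w => bwd (th s w)) = β := by
    have := congrArg (fun ν => ν.map Prod.fst) h2
    simp only [Measure.map_fst_prod, measure_univ, one_smul] at this
    rwa [Measure.map_map measurable_fst (m1.prodMk m2)] at this
  have e2 : (WW β).map (fun w => fwd (th s w)) = β := by
    have := congrArg (fun ν => ν.map Prod.snd) h2
    simp only [Measure.map_snd_prod, measure_univ, one_smul] at this
    rwa [Measure.map_map measurable_snd (m1.prodMk m2)] at this
  rw [indepFun_iff_map_prod_eq_prod_map_map m1.aemeasurable m2.aemeasurable, e1, e2, h2]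

/-- windows that are far apart are independent -/
lemma window_indep (hβ : IsBeta β) {M : ℕ} {a b : ℝ} (hab : a + 2 * M ≤ b) :
    IndepFun (fun w => clip M (th a w)) (fun w => clip M (th b w)) (WW β) := by
  have hM : (0 : ℝ) ≤ M := by positivity
  set s : ℝ := a + M with hs
  let ψ : E → E := fun z => ⟨fun t => z.1 (M - max (min t M) (-M)) - z.1 M, by
    have := z.2.1
    fun_prop, by simp⟩
  have hψ : Measurable ψ := meas_E fun t => (meas_eval _).sub (meas_eval _)
  let φ : E → E := fun z => ⟨fun t => z.1 (b - s + max (min t M) (-M)) - z.1 (b - s), by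
    have := z.2.1
    fun_prop, by simp⟩
  have hφ : Measurable φ := meas_E fun t => (meas_eval _).sub (meas_eval _)
  have e1 : (fun w => clip M (th a w)) = ψ ∘ (fun w => bwd (th s w)) := by
    ext1 w
    refine E.ext' fun t => ?_
    simp only [clip_apply, th_apply, Function.comp_apply, bwd_apply, ψ]
    set c := max (min t (M : ℝ)) (-M) with hc
    have hc1 : c ≤ M := max_le (min_le_right _ _) (by linarith)
    rw [max_eq_left (by linarith), max_eq_left hM, hs]
    rw [show a + M + -(M - c) = a + c by ring, show a + M + -(M : ℝ) = a by ring]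
    ring
  have e2 : (fun w => clip M (th b w)) = φ ∘ (fun w => fwd (th s w)) := by
    ext1 w
    refine E.ext' fun t => ?_
    simp only [clip_apply, th_apply, Function.comp_apply, fwd_apply, φ]
    set c := max (min t (M : ℝ)) (-M) with hc
    have hc1 : -(M : ℝ) ≤ c := le_max_right _ _
    rw [max_eq_left (by rw [hs]; linarith), max_eq_left (by rw [hs]; linarith)]
    rw [show s + (b - s + c) = b + c by ring, show s + (b - s) = b by ring]
    ring
  rw [e1, e2]
  exact (WW_indep hβ s).comp hψ hφ

theorem avgProp (hβ : IsBeta β) : AvgProp (WW β) (fun k : ℕ => th (-(k : ℝ))) := by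
  intro ρ hρf hρ ε hε
  have hWp := WW_prob hβ
  set W := WW β with hW
  set g := ρ.rnDeriv W with hg
  have hgm : Measurable g := Measure.measurable_rnDeriv _ _
  have hρg : W.withDensity g = ρ := Measure.withDensity_rnDeriv_eq _ _ hρ
  have hgt : ∀ᵐ x ∂W, g x < ∞ := Measure.rnDeriv_lt_top _ _
  set gr : E → ℝ := fun w => (g w).toReal with hgr
  have hgrm : Measurable gr := hgm.ennreal_toReal
  have hgint : Integrable gr W := Measure.integrable_toReal_rnDeriv
  set c : ℝ := ∫ w, gr w ∂W with hc
  have hcρ : ENNReal.ofReal c = ρ univ := by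
    rw [hc, hgr]
    rw [integral_toReal hgm.aemeasurable hgt, ENNReal.ofReal_toReal]
    · rw [← hρg, withDensity_apply _ MeasurableSet.univ, Measure.restrict_univ]
    · rw [← setLIntegral_univ, ← withDensity_apply _ MeasurableSet.univ, hρg]
      exact measure_ne_top _ _
  -- choose the window
  have hsm : StronglyMeasurable[⨆ n, winF n] gr :=
    (hgrm.mono winF_iSup le_rfl).stronglyMeasurable
  have hlevy := hgint.tendsto_eLpNorm_condExp (ℱ := winF) hsm
  have hε2 : 0 < ε / 2 := ENNReal.half_pos hε
  obtain ⟨M, hM⟩ := (hlevy.eventually (ge_mem_nhds hε2)).exists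
  set gM : E → ℝ := W[gr | winF M] with hgM
  have hgMint : Integrable gM W := integrable_condExp
  have hgMm : StronglyMeasurable[winF M] gM := stronglyMeasurable_condExp
  have hgMm' : Measurable gM := hgMm.measurable.mono (winF.le M) le_rfl
  let r : ℕ → ℝ := fun i => (2 * M * i : ℕ)
  let X : ℕ → E → ℝ := fun i w => gM (th (r i) w)
  have hXmeas : ∀ i, Measurable (X i) := fun i => hgMm'.comp (meas_th _)
  have hident : ∀ i, IdentDistrib (X i) (X 0) W W := by
    have h1 : ∀ i, W.map (X i) = W.map gM := by
      intro i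
      have : X i = gM ∘ th (r i) := rfl
      rw [this, ← Measure.map_map hgMm' (meas_th _), hW, WW_shift hβ]
    intro i
    exact ⟨(hXmeas i).aemeasurable, (hXmeas 0).aemeasurable, by rw [h1, h1]⟩
  have hlt : ∀ i j, i < j → IndepFun (X i) (X j) W := by
    intro i j hij
    have h1 := window_indep hβ (M := M) (a := r i) (b := r j) (by
      have : (i : ℝ) + 1 ≤ j := by exact_mod_cast hij
      have hM0 : (0 : ℝ) ≤ M := by positivity
      simp only [r]
      push_cast
      nlinarith)
    have h2 : ∀ i, MeasurableSpace.comap (X i) inferInstance ≤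
        MeasurableSpace.comap (fun w => clip M (th (r i) w)) inferInstance := by
      intro i
      have e1 : (fun w => clip M (th (r i) w)) = clip M ∘ th (r i) := rfl
      have e2 : X i = gM ∘ th (r i) := rfl
      rw [e1, e2, ← MeasurableSpace.comap_comp, ← MeasurableSpace.comap_comp]
      exact MeasurableSpace.comap_mono hgMm.measurable.comap_le
    rw [IndepFun_iff_Indep] at h1 ⊢
    exact indep_of_indep_of_le_left (indep_of_indep_of_le_right h1 (h2 j)) (h2 i)
  have hindep : Pairwise (Function.onFun (fun f g => IndepFun f g W) X) := by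
    intro i j hij
    rcases lt_or_gt_of_ne hij with h | h
    · exact hlt i j h
    · exact (hlt j i h).symm
  have hX0 : X 0 = gM := by
    ext w
    simp [X, r, th_zero]
  have hslln := strong_law_Lp (p := 1) le_rfl (by simp) X
    (by rw [hX0]; exact memLp_one_iff_integrable.2 hgMint) hindep hident
  have hcX : W[X 0] = c := by
    rw [hX0, hgM, integral_condExp (winF.le M)]
  rw [hcX] at hslln
  obtain ⟨K, hK1, hK2⟩ := ((hslln.eventually (ge_mem_nhds hε2)).and (eventually_ge_atTop 1)).exists
  have hK0 : K ≠ 0 := by omega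
  set F : E → ℝ := fun w => (K : ℝ)⁻¹ * ∑ i ∈ Finset.range K, gr (th (r i) w) with hF
  have hFm : Measurable F :=
    (Finset.measurable_sum _ fun i _ => hgrm.comp (meas_th _)).const_mul _
  have hdist : eLpNorm (fun w => F w - c) 1 W ≤ ε := by
    have h1 : (fun w => F w - c) = (fun w => (K : ℝ)⁻¹ * ∑ i ∈ Finset.range K, (gr - gM) (th (r i) w))
        + (fun w => (K : ℝ)⁻¹ * (∑ i ∈ Finset.range K, X i w) - c) := by
      ext w
      simp only [hF, Pi.add_apply, Pi.sub_apply, X, Finset.sum_sub_distrib]
      ring
    rw [h1]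
    refine (eLpNorm_add_le ?_ ?_ le_rfl).trans ?_
    · exact ((Finset.measurable_sum _ fun i _ =>
        (hgrm.sub hgMm').comp (meas_th _)).const_mul _).aestronglyMeasurable
    · exact (((Finset.measurable_sum _ fun i _ =>
        hXmeas i).const_mul _).sub_const _).aestronglyMeasurable
    · have h2 : eLpNorm (fun w => (K : ℝ)⁻¹ * ∑ i ∈ Finset.range K, (gr - gM) (th (r i) w)) 1 W
          ≤ ε / 2 := by
        have h3 : (fun w => (K : ℝ)⁻¹ * ∑ i ∈ Finset.range K, (gr - gM) (th (r i) w)) =
            (K : ℝ)⁻¹ • ∑ i ∈ Finset.range K, (fun w => (gr - gM) (th (r i) w)) := by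
          ext w
          simp
        rw [h3, eLpNorm_const_smul]
        have h4 : eLpNorm (∑ i ∈ Finset.range K, (fun w => (gr - gM) (th (r i) w))) 1 W ≤
            ∑ i ∈ Finset.range K, eLpNorm (fun w => (gr - gM) (th (r i) w)) 1 W :=
          eLpNorm_sum_le (fun i _ =>
            ((hgrm.sub hgMm').comp (meas_th _)).aestronglyMeasurable) le_rfl
        have h5 : ∀ i, eLpNorm (fun w => (gr - gM) (th (r i) w)) 1 W = eLpNorm (gM - gr) 1 W := by
          intro i
          have := eLpNorm_comp_measurePreserving (p := 1)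
            (hgrm.sub hgMm').aestronglyMeasurable (J_law hβ (r i))
          rw [← hW] at this
          rw [← eLpNorm_neg (f := gM - gr), neg_sub, ← this]
          rfl
        calc ‖(K : ℝ)⁻¹‖ₑ * eLpNorm (∑ i ∈ Finset.range K, (fun w => (gr - gM) (th (r i) w))) 1 W
            ≤ ‖(K : ℝ)⁻¹‖ₑ * ∑ i ∈ Finset.range K, eLpNorm (gM - gr) 1 W := by
              gcongr
              refine h4.trans (le_of_eq ?_)
              exact Finset.sum_congr rfl fun i _ => h5 i
          _ = eLpNorm (gM - gr) 1 W := by
              rw [Finset.sum_const, Finset.card_range, nsmul_eq_mul, ← mul_assoc]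
              have h6 : ‖(K : ℝ)⁻¹‖ₑ = (K : ℝ≥0∞)⁻¹ := by
                rw [enorm_inv (by exact_mod_cast hK0)]
                congr 1
                rw [Real.enorm_of_nonneg (by positivity)]
                exact ENNReal.ofReal_natCast K
              rw [h6, ENNReal.inv_mul_cancel (by exact_mod_cast hK0) (ENNReal.natCast_ne_top K),
                one_mul]
          _ ≤ ε / 2 := hM
      calc _ ≤ ε / 2 + ε / 2 := add_le_add h2 hK1
        _ = ε := ENNReal.add_halves ε
  refine ⟨K, hK0, fun i => 2 * M * i, W.withDensity (fun w => ENNReal.ofReal (c - F w)), ?_, ?_⟩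
  · rw [withDensity_apply _ MeasurableSet.univ, Measure.restrict_univ]
    refine le_trans (lintegral_mono fun w => ?_) ((eLpNorm_one_eq_lintegral_enorm (μ := W)
      (f := fun w => F w - c)).symm.le.trans hdist)
    rw [enorm_sub_rev]
    exact Real.ofReal_le_enorm _
  · have hshift : ∀ s : ℝ, ρ.map (th (-s)) = W.withDensity (fun w => g (th s w)) := by
      intro s
      have h1 : W.withDensity (g ∘ th s) = (ρ.map (th (-s))) := by
        have h2 := map_withDensity_comp (ρ := W) (meas_th s) hgm
        rw [hW, WW_shift hβ, ← hW, hρg] at h2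
        have h3 := congrArg (fun ν => ν.map (th (-s))) h2
        rw [Measure.map_map (meas_th _) (meas_th _)] at h3
        have h4 : th (-s) ∘ th s = id := by
          ext1 w
          simp only [Function.comp_apply, th_th, id]
          rw [add_neg_cancel, th_zero]
        rwa [h4, Measure.map_id] at h3
      exact h1.symm
    have h1 : (K : ℝ≥0∞)⁻¹ • ∑ i ∈ Finset.range K, ρ.map (th (-((2 * M * i : ℕ) : ℝ))) =
        W.withDensity (fun w => (K : ℝ≥0∞)⁻¹ * ∑ i ∈ Finset.range K, g (th (r i) w)) := by
      have h2 : (fun w => (K : ℝ≥0∞)⁻¹ * ∑ i ∈ Finset.range K, g (th (r i) w)) =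
          (K : ℝ≥0∞)⁻¹ • (fun w => ∑ i ∈ Finset.range K, g (th (r i) w)) := rfl
      rw [h2, withDensity_smul]
      · congr 1
        rw [Finset.sum_congr rfl fun i _ => hshift _]
        ext A hA
        rw [withDensity_apply _ hA, lintegral_finsetSum, Measure.coe_finsetSum, Finset.sum_apply]
        · refine Finset.sum_congr rfl fun i _ => ?_
          rw [withDensity_apply _ hA]
        · exact fun i _ => hgm.comp (meas_th _)
      · exact Finset.measurable_sum _ fun i _ => hgm.comp (meas_th _)
    change (ρ univ) • W ≤ (K : ℝ≥0∞)⁻¹ • ∑ i ∈ Finset.range K, ρ.map (th (-((2 * M * i : ℕ) : ℝ)))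
      + W.withDensity (fun w => ENNReal.ofReal (c - F w))
    rw [h1, ← withDensity_add_left]
    · have h3 : (ρ univ) • W = W.withDensity (fun _ => ρ univ) := by
        rw [withDensity_const]
      rw [h3]
      refine withDensity_mono ?_
      have h4 : ∀ᵐ w ∂W, ∀ i : ℕ, g (th (r i) w) < ∞ := by
        rw [ae_all_iff]
        intro i
        exact (J_law hβ (r i)).quasiMeasurePreserving.ae hgt
      filter_upwards [h4] with w hw
      simp only [Pi.add_apply]
      rw [← hcρ]
      have h5 : ∀ i, g (th (r i) w) = ENNReal.ofReal (gr (th (r i) w)) := fun i =>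
        (ENNReal.ofReal_toReal (hw i).ne).symm
      have h6 : (K : ℝ≥0∞)⁻¹ * ∑ i ∈ Finset.range K, g (th (r i) w) = ENNReal.ofReal (F w) := by
        rw [Finset.sum_congr rfl fun i _ => h5 i, ← ENNReal.ofReal_sum_of_nonneg
          (fun i _ => ENNReal.toReal_nonneg), hF, ENNReal.ofReal_mul (by positivity),
          ENNReal.ofReal_inv_of_pos (by exact_mod_cast Nat.pos_of_ne_zero hK0),
          ENNReal.ofReal_natCast]
      rw [h6]
      calc ENNReal.ofReal c = ENNReal.ofReal (F w + (c - F w)) := by congr 1; ring
        _ ≤ _ := ENNReal.ofReal_add_le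
    · exact measurable_const.mul (Finset.measurable_sum _ fun i _ => hgm.comp (meas_th _))

end Pool.Agent.Lib.MP_5dec12_pr
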