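import Mathlib

open MeasureTheory Set Filter ProbabilityTheory
open scoped ENNReal NNReal Topology

namespace Pool.Agent.Lib.MP_5dec12_pr

variable {Ω : Type*} {mΩ : MeasurableSpace Ω}

/-- Forward Brownian motion: there are random times `S n` tending to `-∞` such that each process
`X (S n + t) - X (S n)`, `t ≥ 0`, is a Brownian motion. -/
def IsFBM (X : ℝ → Ω → ℝ) (P : Measure Ω) : Prop :=
  ∃ S : ℕ → Ω → ℝ, (∀ n, Measurable (S n)) ∧ (∀ᵐ ω ∂P, Tendsto (fun n => S n ω) atTop atBot) ∧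
    ∀ n, IsBrownianReal (fun (t : ℝ≥0) ω => X (S n ω + t) ω - X (S n ω) ω) P

/-- Backward Brownian motion: the time reversal is a forward Brownian motion. -/
def IsBBM (X : ℝ → Ω → ℝ) (P : Measure Ω) : Prop :=
  IsFBM (fun t => X (-t)) P

/-- Two-sided Brownian motion: seen from some random time `S`, the future and the past are
independent Brownian motions. -/
def IsTwoSidedBM (X : ℝ → Ω → ℝ) (P : Measure Ω) : Prop :=
  ∃ S : Ω → ℝ, Measurable S ∧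
    IsBrownianReal (fun (t : ℝ≥0) ω => X (S ω + t) ω - X (S ω) ω) P ∧
    IsBrownianReal (fun (t : ℝ≥0) ω => X (S ω - t) ω - X (S ω) ω) P ∧
    IndepFun (fun ω (t : ℝ≥0) => X (S ω + t) ω - X (S ω) ω)
      (fun ω (t : ℝ≥0) => X (S ω - t) ω - X (S ω) ω) P

/-- Brownian motion with respect to a filtration. -/
structure IsBrownianWrt (B : ℝ≥0 → Ω → ℝ) (F : Filtration ℝ≥0 mΩ) (P : Measure Ω) : Prop where
  brownian : IsBrownianReal B P
  adapted : ∀ t, Measurable[F t] (B t)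
  indep : ∀ s t, s ≤ t →
    Indep (F s) (MeasurableSpace.comap (fun ω => B t ω - B s ω) inferInstance) P

/-- Decomposable process: seen from a random time `U`, the process is the concatenation of
independent pieces `(B k t, 0 ≤ t ≤ T k)`, where `B k` is a Brownian motion for a filtration `F k`
and `T k` is a stopping time of that filtration. -/
def IsDecomposable (X : ℝ → Ω → ℝ) (P : Measure Ω) : Prop :=
  ∃ (U : Ω → ℝ) (F : ℤ → Filtration ℝ≥0 mΩ) (B : ℤ → ℝ≥0 → Ω → ℝ) (T : ℤ → Ω → ℝ≥0)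
    (S : ℤ → Ω → ℝ) (Y : ℝ → Ω → ℝ),
    Measurable U ∧
    (∀ k, IsBrownianWrt (B k) (F k) P) ∧
    (∀ k, IsStoppingTime (F k) (fun ω => (T k ω : WithTop ℝ≥0))) ∧
    iIndepFun (fun k ω => (T k ω, fun t : ℝ≥0 => B k (min t (T k ω)) ω)) P ∧
    (∀ᵐ ω ∂P, ∑' n : ℕ, (T (n + 1) ω : ℝ≥0∞) = ∞) ∧
    (∀ᵐ ω ∂P, ∑' n : ℕ, (T (-(n + 1)) ω : ℝ≥0∞) = ∞) ∧
    (∀ ω, S 0 ω = 0) ∧ (∀ k ω, S (k + 1) ω - S k ω = T k ω) ∧
    (∀ᵐ ω ∂P, Continuous (fun t => Y t ω) ∧ Y 0 ω = 0 ∧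
      ∀ k, ∀ t : ℝ≥0, t < T k ω → Y (S k ω + t) ω - Y (S k ω) ω = B k t ω) ∧
    ∀ᵐ ω ∂P, ∀ t, X (U ω + t) ω - X (U ω) ω = Y t ω

end Pool.Agent.Lib.MP_5dec12_pr
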