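import Mathlib
import Pool.Agent.Lib.MP_5dec12_pr.Defs
import Pool.Agent.Lib.MP_5dec12_pr.Wiener

open MeasureTheory Set Filter ProbabilityTheory
open scoped ENNReal NNReal Topology

namespace Pool.Agent.Lib.MP_5dec12_pr

variable {Ω : Type*} {mΩ : MeasurableSpace Ω} {P : Measure Ω} {B : ℝ≥0 → Ω → ℝ}
  {F : Filtration ℝ≥0 mΩ}

lemma IsBrownianWrt.meas (hB : IsBrownianWrt B F P) (t : ℝ≥0) : Measurable (B t) :=
  (hB.adapted t).mono (F.le t) le_rfl

/-- The future increments are jointly independent of the present. -/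
lemma indep_future (hB : IsBrownianWrt B F P) (s : ℝ≥0) :
    Indep (F s) (MeasurableSpace.comap (fun ω (u : ℝ≥0) => B (s + u) ω - B s ω)
      MeasurableSpace.pi) P := by
  have hPp : IsProbabilityMeasure P := hB.brownian.isGaussianProcess.isProbabilityMeasure
  set D : ℝ≥0 → Ω → ℝ := fun u ω => B (s + u) ω - B s ω with hD
  have hDm : ∀ u, Measurable (D u) := fun u => (hB.meas _).sub (hB.meas _)
  have hDs : IsPreBrownianReal D P := hB.brownian.toIsPreBrownianReal.shift s
  have hDpm : Measurable (fun ω u => D u ω) := measurable_pi_iff.2 hDm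
  rw [Indep_iff]
  rintro A C hA ⟨C', hC', rfl⟩
  have hA' : MeasurableSet A := F.le s A hA
  by_cases hA0 : P A = 0
  · rw [hA0, zero_mul]
    exact measure_mono_null inter_subset_left hA0
  have hAt : P A ≠ ∞ := measure_ne_top _ _
  -- key product formula
  have key : ∀ (t : ℕ → ℝ≥0) (_ : Monotone t) (sets : ℕ → Set ℝ)
      (_ : ∀ i, MeasurableSet (sets i)) (S : Finset ℕ),
      P (A ∩ ⋂ i ∈ S, (fun ω => D (t (i + 1)) ω - D (t i) ω) ⁻¹' (sets i)) =
        P A * ∏ i ∈ S, P ((fun ω => D (t (i + 1)) ω - D (t i) ω) ⁻¹' (sets i)) := by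
    intro t ht sets hsets S
    induction S using Finset.induction_on_max with
    | empty => simp
    | insert a S ha ih =>
      have haS : a ∉ S := fun h => lt_irrefl _ (ha a h)
      have hms : MeasurableSet[F (s + t a)]
          (A ∩ ⋂ i ∈ S, (fun ω => D (t (i + 1)) ω - D (t i) ω) ⁻¹' (sets i)) := by
        refine MeasurableSet.inter (F.mono le_self_add _ hA) ?_
        refine Finset.measurableSet_biInter _ fun i hi => ?_
        have h1 : @Measurable Ω ℝ (F (s + t a)) _ (fun ω => D (t (i + 1)) ω - D (t i) ω) := by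
          have h2 : (fun ω => D (t (i + 1)) ω - D (t i) ω) =
              fun ω => B (s + t (i + 1)) ω - B (s + t i) ω := by
            ext ω
            simp [hD]
          rw [h2]
          refine Measurable.sub ?_ ?_
          · exact (hB.adapted _).mono (F.mono (add_le_add_right (ht (ha i hi)) _)) le_rfl
          · exact (hB.adapted _).mono (F.mono (add_le_add_right (ht (ha i hi).le) _)) le_rfl
        exact h1 (hsets i)
      have hind := hB.indep (s + t a) (s + t (a + 1)) (add_le_add_right (ht (Nat.le_succ a)) _)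
      rw [Indep_iff] at hind
      have h3 := hind _ ((fun ω => D (t (a + 1)) ω - D (t a) ω) ⁻¹' (sets a)) hms (by
        refine ⟨sets a, hsets a, ?_⟩
        ext ω
        simp [hD])
      have h4 : A ∩ ⋂ i ∈ insert a S, (fun ω => D (t (i + 1)) ω - D (t i) ω) ⁻¹' (sets i) =
          (A ∩ ⋂ i ∈ S, (fun ω => D (t (i + 1)) ω - D (t i) ω) ⁻¹' (sets i)) ∩
            (fun ω => D (t (a + 1)) ω - D (t a) ω) ⁻¹' (sets a) := by
        rw [Finset.set_biInter_insert, inter_assoc, inter_comm (⋂ i ∈ S, _)]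
      rw [h4, h3, ih, Finset.prod_insert haS]
      ring
  set Q := P[|A] with hQ
  have hQp : IsProbabilityMeasure Q := cond_isProbabilityMeasure hA0
  have hQa : ∀ C, Q C = (P A)⁻¹ * P (A ∩ C) := fun C => cond_apply hA' P C
  have hone : ∀ (t : ℕ → ℝ≥0) (_ : Monotone t) (C : Set ℝ) (_ : MeasurableSet C) (i : ℕ),
      Q ((fun ω => D (t (i + 1)) ω - D (t i) ω) ⁻¹' C) =
        P ((fun ω => D (t (i + 1)) ω - D (t i) ω) ⁻¹' C) := by
    intro t ht C hC i
    have := key t ht (fun _ => C) (fun _ => hC) {i}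
    simp only [Finset.mem_singleton, iInter_iInter_eq_left, Finset.prod_singleton] at this
    rw [hQa, this, ← mul_assoc, ENNReal.inv_mul_cancel hA0 hAt, one_mul]
  have hinc : HasIndepIncrements D Q := by
    refine HasIndepIncrements.of_nat fun t ht _ => ?_
    rw [iIndepFun_iff_measure_inter_preimage_eq_mul]
    intro S sets hsets
    have hsets' : ∀ i, MeasurableSet (if i ∈ S then sets i else univ) := by
      intro i
      split_ifs with h
      · exact hsets i h
      · exact MeasurableSet.univ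
    have h1 := key t ht (fun i => if i ∈ S then sets i else univ) hsets' S
    have h2 : (⋂ i ∈ S, (fun ω => D (t (i + 1)) ω - D (t i) ω) ⁻¹'
        (if i ∈ S then sets i else univ)) =
        ⋂ i ∈ S, (fun ω => D (t (i + 1)) ω - D (t i) ω) ⁻¹' (sets i) := by
      refine iInter₂_congr fun i hi => ?_
      rw [if_pos hi]
    rw [h2] at h1
    rw [hQa, h1, ← mul_assoc, ENNReal.inv_mul_cancel hA0 hAt, one_mul]
    refine Finset.prod_congr rfl fun i hi => ?_
    simp only [if_pos hi]
    exact (hone t ht (sets i) (hsets i hi) i).symm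
  have hlaw : ∀ u, HasLaw (D u) (gaussianReal 0 u) Q := by
    intro u
    refine ⟨(hDm u).aemeasurable, ?_⟩
    rw [← (hDs.hasLaw_eval u).map_eq]
    ext C hC
    rw [Measure.map_apply (hDm u) hC, Measure.map_apply (hDm u) hC]
    let t : ℕ → ℝ≥0 := fun i => if i = 0 then 0 else u
    have ht : Monotone t := by
      refine monotone_nat_of_le_succ fun n => ?_
      simp only [t]
      split_ifs <;> simp_all
    have h := hone t ht C hC 0
    have e : (fun ω => D (t (0 + 1)) ω - D (t 0) ω) = D u := by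
      ext ω
      simp [t, hD]
    rwa [e] at h
  have hpre : IsPreBrownianReal D Q := HasIndepIncrements.isPreBrownianReal_of_hasLaw hlaw hinc
  have hmap := preBM_law_eq hpre hDs hDm hDm
  have h5 : Q ((fun ω u => D u ω) ⁻¹' C') = P ((fun ω u => D u ω) ⁻¹' C') := by
    rw [← Measure.map_apply hDpm hC', ← Measure.map_apply hDpm hC', hmap]
  rw [← h5, hQa, ← mul_assoc, ENNReal.mul_inv_cancel hA0 hAt, one_mul]


lemma glue_stp_fwd (s : ℝ≥0) (w : E) : glue s (stp s w) (fwd (th s w)) = fwd w := by
  refine E.ext' fun t => ?_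
  simp only [glue_apply, stp_apply, fwd_apply, th_apply]
  rcases le_total t s with h | h
  · have h1 : max (t - (s : ℝ)) 0 = 0 := max_eq_right (by linarith)
    have h2 : max (max t 0) 0 = max t 0 := max_eq_left (le_max_right _ _)
    have h3 : max t 0 ≤ (s : ℝ) := max_le h s.2
    rw [h1, h2, min_eq_left h3]
    simp
  · have h0 : 0 ≤ t := s.2.trans h
    have h1 : max (t - (s : ℝ)) 0 = t - s := max_eq_left (by linarith)
    have h2 : max t 0 = t := max_eq_left h0
    rw [h1, h2, h2, min_eq_right h, max_eq_left (by linarith)]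
    rw [show (s : ℝ) + (t - s) = t by ring]
    ring

/-- a measurable path version of a Brownian motion with adapted coordinates -/
structure IsPathOf (b : Ω → E) (B : ℝ≥0 → Ω → ℝ) (P : Measure Ω) : Prop where
  meas : Measurable b
  eq : ∀ᵐ ω ∂P, ∀ t : ℝ≥0, (b ω).1 t = B t ω
  fw : ∀ ω, fwd (b ω) = b ω

lemma exists_pathOf (hB : IsBrownianWrt B F P) : ∃ b, IsPathOf b B P := by
  have hc : ∀ᵐ ω ∂P, Continuous (fun t : ℝ => B t.toNNReal ω) := by
    filter_upwards [hB.brownian.cont] with ω h
    exact h.comp continuous_real_toNNReal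
  obtain ⟨b, hb, hbe⟩ := exists_path (fun t : ℝ => hB.meas t.toNNReal) hc
  refine ⟨fun ω => fwd (b ω), meas_fwd.comp hb, ?_, fun ω => fwd_fwd _⟩
  filter_upwards [hbe, hB.brownian.eval_zero_ae_eq_zero] with ω h h0 t
  rw [fwd_apply, h]
  simp [h0]

lemma IsPathOf.law {b : Ω → E} (hb : IsPathOf b B P) (hB : IsPreBrownianReal B P) :
    IsBeta (P.map b) := by
  refine isBeta_of_process hB hb.meas (fun t => ?_) (Eventually.of_forall hb.fw)
  filter_upwards [hb.eq] with ω h using h t

variable {β : Measure E}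

lemma IsPathOf.law_future {b : Ω → E} (hb : IsPathOf b B P) (hB : IsPreBrownianReal B P)
    (hβ : IsBeta β) (s : ℝ≥0) : P.map (fun ω => fwd (th s (b ω))) = β := by
  refine IsBeta.unique (isBeta_of_process (hB.shift s) (meas_fwd.comp ((meas_th _).comp hb.meas))
    (fun t => ?_) ?_) hβ
  · filter_upwards [hb.eq] with ω h
    simp only [fwd_apply, th_apply]
    rw [max_eq_left t.coe_nonneg]
    have := h (s + t)
    push_cast at this
    rw [this, h s]
  · exact Eventually.of_forall fun ω => fwd_fwd _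

lemma meas_prod_aux {Ω : Type*} {m : MeasurableSpace Ω} {f : Ω → ℝ} {g : Ω → ℝ → ℝ}
    (hf : Measurable f) (hg : ∀ t, Measurable (fun ω => g ω t)) :
    Measurable (fun ω => (f ω, g ω)) :=
  hf.prodMk (measurable_pi_iff.2 hg)

lemma meas_prodE_aux {Ω : Type*} {m : MeasurableSpace Ω} {f : Ω → ℝ} {g : Ω → E}
    (hf : Measurable f) (hg : ∀ t, Measurable (fun ω => (g ω).1 t)) :
    Measurable (fun ω => (f ω, g ω)) :=
  hf.prodMk (meas_E hg)

lemma SM_indep (hB : IsBrownianWrt B F P) {b : Ω → E} (hb : IsPathOf b B P) (s : ℝ≥0)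
    {A : Set Ω} (hA : MeasurableSet[F s] A) :
    IndepFun (fun ω => (A.indicator (1 : Ω → ℝ) ω, stp s (b ω))) (fun ω => fwd (th s (b ω))) P := by
  have h1 := indep_future hB s
  -- the process version
  set q' : Ω → ℝ × (ℝ → ℝ) :=
    fun ω => (A.indicator (1 : Ω → ℝ) ω, fun t : ℝ => B (min t.toNNReal s) ω) with hq'
  set f' : Ω → ℝ≥0 → ℝ := fun ω u => B (s + u) ω - B s ω with hf'
  have h2 : IndepFun q' f' P := by
    rw [IndepFun_iff_Indep]
    refine indep_of_indep_of_le_left h1 ?_
    have : Measurable[F s] q' := by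
      refine meas_prod_aux (m := F s) ?_ fun t => ?_
      · have h1m : Measurable[F s] (fun _ : Ω => (1 : ℝ)) := measurable_const
        exact h1m.indicator hA
      · exact (hB.adapted _).mono (F.mono (min_le_right _ _)) le_rfl
    exact this.comap_le
  set q'' : Ω → ℝ × (ℝ → ℝ) :=
    fun ω => (A.indicator (1 : Ω → ℝ) ω, (stp s (b ω)).1) with hq''
  set f'' : Ω → ℝ≥0 → ℝ := fun ω u => (b ω).1 (s + u) - (b ω).1 s with hf''
  have h3 : IndepFun q'' f'' P := by
    refine h2.congr ?_ ?_
    · filter_upwards [hb.eq] with ω h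
      simp only [hq', hq'', Prod.mk.injEq, true_and]
      ext t
      rw [stp_apply, ← h]
      simp [Real.coe_toNNReal']
    · filter_upwards [hb.eq] with ω h
      simp only [hf', hf'']
      ext u
      have := h (s + u)
      push_cast at this
      rw [← this, ← h s]
  have h4 : IndepFun (fun ω => (A.indicator (1 : Ω → ℝ) ω, stp s (b ω))) f'' P := by
    rw [IndepFun_iff_Indep] at h3 ⊢
    refine indep_of_indep_of_le_left h3 ?_
    have : Measurable[MeasurableSpace.comap q'' inferInstance]
        (fun ω => (A.indicator (1 : Ω → ℝ) ω, stp s (b ω))) := by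
      have hc : Measurable[MeasurableSpace.comap q'' inferInstance] q'' := comap_measurable _
      refine meas_prodE_aux (m := MeasurableSpace.comap q'' inferInstance) ?_ fun t => ?_
      · exact measurable_fst.comp hc
      · exact (measurable_pi_apply t).comp (measurable_snd.comp hc)
    exact this.comap_le
  refine (indepFun_E meas_extFun (f' := f'') (fun ω => ?_) h4.symm).symm
  ext t
  simp [fwd_apply, th_apply, hf'', extFun, Real.coe_toNNReal']

lemma SM_fixed (hB : IsBrownianWrt B F P) {b : Ω → E} (hb : IsPathOf b B P) (hβ : IsBeta β)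
    (s : ℝ≥0) {A : Set Ω} (hA : MeasurableSet[F s] A) {C : Set E} (hC : MeasurableSet C) :
    P (A ∩ b ⁻¹' C) = (P.prod β) {q | q.1 ∈ A ∧ glue s (stp s (b q.1)) q.2 ∈ C} := by
  have hPp : IsProbabilityMeasure P := hB.brownian.isGaussianProcess.isProbabilityMeasure
  have hβp := hβ.prob
  have hA' : MeasurableSet A := F.le s A hA
  have hI := SM_indep hB hb s hA
  set q : Ω → ℝ × E := fun ω => (A.indicator (1 : Ω → ℝ) ω, stp s (b ω)) with hq
  have hqm : Measurable q := (measurable_one.indicator hA').prodMk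
    (meas_stp' measurable_const hb.meas)
  have hfm : Measurable (fun ω => fwd (th s (b ω))) := meas_fwd.comp ((meas_th _).comp hb.meas)
  have h1 := (indepFun_iff_map_prod_eq_prod_map_map hqm.aemeasurable hfm.aemeasurable).1 hI
  rw [hb.law_future hB.brownian.toIsPreBrownianReal hβ s] at h1
  set D : Set ((ℝ × E) × E) := {x | x.1.1 = 1 ∧ glue s x.1.2 x.2 ∈ C} with hD
  have hDm : MeasurableSet D := by
    refine MeasurableSet.inter ?_ ?_
    · exact measurable_fst.fst (measurableSet_singleton (1 : ℝ))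
    · exact (meas_glue' measurable_const measurable_fst.snd measurable_snd) hC
  have h2 : A ∩ b ⁻¹' C = (fun ω => (q ω, fwd (th s (b ω)))) ⁻¹' D := by
    ext ω
    simp only [mem_inter_iff, mem_preimage, hD, hq]
    constructor
    · rintro ⟨h3, h4⟩
      refine ⟨by simp [h3], ?_⟩
      simp only
      rw [glue_stp_fwd, hb.fw]
      exact h4
    · rintro ⟨h3, h4⟩
      refine ⟨?_, ?_⟩
      · by_contra h
        simp [h] at h3
      · simp only at h4
        rwa [glue_stp_fwd, hb.fw] at h4
  have h3 : {q : Ω × E | q.1 ∈ A ∧ glue s (stp s (b q.1)) q.2 ∈ C} =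
      (Prod.map q id) ⁻¹' D := by
    ext x
    simp only [mem_preimage, hD, hq, Prod.map]
    constructor
    · rintro ⟨h3, h4⟩
      exact ⟨by simp [h3], h4⟩
    · rintro ⟨h3, h4⟩
      refine ⟨?_, h4⟩
      by_contra h
      simp [h] at h3
  rw [h2, ← Measure.map_apply (hqm.prodMk hfm) hDm, h1, h3,
    ← Measure.map_apply (hqm.prodMap measurable_id) hDm, ← Measure.map_prod_map _ _ hqm measurable_id,
    Measure.map_id]


lemma sum_fib {α : Type*} [MeasurableSpace α] (μ : Measure α) {κ : α → ℕ} (hκ : Measurable κ)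
    {S : Set α} (hS : MeasurableSet S) : μ S = ∑' k, μ ({x | κ x = k} ∩ S) := by
  have h1 : S = ⋃ k, ({x | κ x = k} ∩ S) := by
    ext x
    simp
  conv_lhs => rw [h1]
  refine measure_iUnion ?_ fun k => ?_
  · intro i j hij
    refine Set.disjoint_left.2 ?_
    rintro x ⟨hx, _⟩ ⟨hx', _⟩
    exact hij (hx.symm.trans hx')
  · exact (hκ (measurableSet_singleton k)).inter hS

/-- dyadic approximation from above -/
noncomputable def dy (n : ℕ) (t : ℝ≥0) : ℝ≥0 := (⌊(2 : ℝ≥0) ^ n * t⌋₊ + 1) / 2 ^ n

lemma meas_dy (n : ℕ) : Measurable (dy n) := by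
  unfold dy
  refine Measurable.div_const ?_ _
  refine Measurable.add_const ?_ _
  exact (measurable_from_top (f := fun k : ℕ => (k : ℝ≥0))).comp
    (Nat.measurable_floor.comp (measurable_const.mul measurable_id))

lemma dy_dist (n : ℕ) (t : ℝ≥0) : (t : ℝ) ≤ dy n t ∧ (dy n t : ℝ) ≤ t + (1 / 2) ^ n := by
  have h2 : (0 : ℝ≥0) < 2 ^ n := by positivity
  have ha : (⌊(2 : ℝ≥0) ^ n * t⌋₊ : ℝ≥0) ≤ 2 ^ n * t := Nat.floor_le (by positivity)
  have hb : (2 : ℝ≥0) ^ n * t < ⌊(2 : ℝ≥0) ^ n * t⌋₊ + 1 := Nat.lt_floor_add_one _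
  constructor
  · have : t ≤ dy n t := by
      unfold dy
      rw [le_div_iff₀ h2, mul_comm]
      exact hb.le
    exact_mod_cast this
  · have : dy n t ≤ t + (1 / 2) ^ n := by
      unfold dy
      rw [div_le_iff₀ h2, add_mul, ← mul_pow]
      have : (1 / 2 * 2 : ℝ≥0) = 1 := by
        rw [one_div, inv_mul_cancel₀ (by norm_num)]
      rw [this, one_pow, mul_comm t]
      gcongr
    exact_mod_cast this

lemma dy_tendsto (t : ℝ≥0) : Tendsto (fun n => (dy n t : ℝ)) atTop (𝓝 t) := by
  have h1 : Tendsto (fun n : ℕ => (t : ℝ) + (1 / 2) ^ n) atTop (𝓝 (t + 0)) :=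
    tendsto_const_nhds.add (tendsto_pow_atTop_nhds_zero_of_lt_one (by norm_num) (by norm_num))
  rw [add_zero] at h1
  exact tendsto_of_tendsto_of_tendsto_of_le_of_le tendsto_const_nhds h1
    (fun n => (dy_dist n t).1) (fun n => (dy_dist n t).2)

lemma SM_discrete (hB : IsBrownianWrt B F P) {b : Ω → E} (hb : IsPathOf b B P) (hβ : IsBeta β)
    {T : Ω → ℝ≥0} (hT : IsStoppingTime F (fun ω => (T ω : WithTop ℝ≥0))) (hTm : Measurable T)
    (n : ℕ) : P.map b = (P.prod β).map
      (fun q => glue (dy n (T q.1)) (stp (dy n (T q.1)) (b q.1)) q.2) := by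
  have hPp : IsProbabilityMeasure P := hB.brownian.isGaussianProcess.isProbabilityMeasure
  have hβp := hβ.prob
  ext C hC
  have hdm : Measurable (fun q : Ω × E => dy n (T q.1)) :=
    (meas_dy n).comp (hTm.comp measurable_fst)
  have hgm : Measurable (fun q : Ω × E =>
      glue (dy n (T q.1)) (stp (dy n (T q.1)) (b q.1)) q.2) :=
    meas_glue' hdm (meas_stp' hdm (hb.meas.comp measurable_fst)) measurable_snd
  rw [Measure.map_apply hb.meas hC, Measure.map_apply hgm hC]
  let κ : Ω → ℕ := fun ω => ⌊(2 : ℝ≥0) ^ n * T ω⌋₊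
  have hκ : Measurable κ := Nat.measurable_floor.comp (measurable_const.mul hTm)
  rw [sum_fib P hκ (hb.meas hC), sum_fib (P.prod β) (hκ.comp measurable_fst) (hgm hC)]
  refine tsum_congr fun k => ?_
  set s : ℝ≥0 := (k + 1) / 2 ^ n with hs
  have h2 : (0 : ℝ≥0) < 2 ^ n := by positivity
  have hA : MeasurableSet[F s] {ω | κ ω = k} := by
    have h3 : {ω | κ ω = k} = {ω | T ω < s} \ {ω | T ω < k / 2 ^ n} := by
      ext ω
      simp only [κ, Set.mem_sdiff]
      change ⌊(2 : ℝ≥0) ^ n * T ω⌋₊ = k ↔ T ω < s ∧ ¬ (T ω < k / 2 ^ n)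
      rw [Nat.floor_eq_iff (by positivity), not_lt, hs, lt_div_iff₀ h2, div_le_iff₀ h2,
        mul_comm (T ω)]
      tauto
    have h4 : ∀ u : ℝ≥0, MeasurableSet[F u] {ω | T ω < u} := by
      intro u
      have h5 := hT.measurableSet_lt u
      convert h5 using 1
      ext ω
      simp only [mem_ofPred_eq]
      exact WithTop.coe_lt_coe.symm
    rw [h3]
    refine MeasurableSet.diff (h4 s) (F.mono ?_ _ (h4 _))
    rw [hs]
    gcongr
    exact le_self_add
  rw [SM_fixed hB hb hβ s hA hC]
  congr 1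
  ext q
  have hk : κ q.1 = k → dy n (T q.1) = s := by
    intro h
    unfold dy
    have : ⌊(2 : ℝ≥0) ^ n * T q.1⌋₊ = k := h
    rw [this, hs]
  constructor
  · rintro ⟨h3, h4⟩
    refine ⟨h3, ?_⟩
    have h3' : κ q.1 = k := h3
    simp only [mem_preimage, hk h3']
    exact h4
  · rintro ⟨h3, h4⟩
    have h3' : κ q.1 = k := h3
    refine ⟨h3, ?_⟩
    simp only [mem_preimage, hk h3'] at h4
    exact h4

/-- **Strong Markov property** in the form of a law identity. -/
theorem SM (hB : IsBrownianWrt B F P) {b : Ω → E} (hb : IsPathOf b B P) (hβ : IsBeta β)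
    {T : Ω → ℝ≥0} (hT : IsStoppingTime F (fun ω => (T ω : WithTop ℝ≥0))) (hTm : Measurable T) :
    (P.prod β).map (fun q => glue (T q.1) (stp (T q.1) (b q.1)) q.2) = β := by
  have hPp : IsProbabilityMeasure P := hB.brownian.isGaussianProcess.isProbabilityMeasure
  have hβp := hβ.prob
  have hlaw : P.map b = β := IsBeta.unique (hb.law hB.brownian.toIsPreBrownianReal) hβ
  have hgm : ∀ τ : Ω → ℝ≥0, Measurable τ → Measurable (fun q : Ω × E =>
      glue (τ q.1) (stp (τ q.1) (b q.1)) q.2) := fun τ hτ =>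
    meas_glue' (hτ.comp measurable_fst) (meas_stp' (hτ.comp measurable_fst)
      (hb.meas.comp measurable_fst)) measurable_snd
  have hdm : ∀ n, Measurable (fun ω => dy n (T ω)) := fun n => (meas_dy n).comp hTm
  refine E_fdd_ext fun I => ?_
  have hI : Measurable (fun w : E => I.restrict w.1) := measurable_pi_iff.2 fun t => meas_eval _
  refine ext_of_forall_integral_eq_of_IsFiniteMeasure fun f => ?_
  rw [integral_map hI.aemeasurable f.continuous.aestronglyMeasurable,
    integral_map hI.aemeasurable f.continuous.aestronglyMeasurable]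
  have hfI : Measurable (fun w : E => f (I.restrict w.1)) := f.continuous.measurable.comp hI
  rw [integral_map (hgm T hTm).aemeasurable hfI.aestronglyMeasurable]
  have h1 : ∀ n, ∫ q, f (I.restrict (glue (dy n (T q.1)) (stp (dy n (T q.1)) (b q.1)) q.2).1)
      ∂(P.prod β) = ∫ w, f (I.restrict w.1) ∂β := by
    intro n
    have e := hlaw.symm.trans (SM_discrete hB hb hβ hT hTm n)
    conv_rhs => rw [e]
    rw [integral_map (hgm _ (hdm n)).aemeasurable hfI.aestronglyMeasurable]
  have h2 : Tendsto (fun n => ∫ q, f (I.restrict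
      (glue (dy n (T q.1)) (stp (dy n (T q.1)) (b q.1)) q.2).1) ∂(P.prod β)) atTop
      (𝓝 (∫ q, f (I.restrict (glue (T q.1) (stp (T q.1) (b q.1)) q.2).1) ∂(P.prod β))) := by
    refine tendsto_integral_of_dominated_convergence (fun _ => ‖f‖) (fun n => ?_)
      (integrable_const _) (fun n => ?_) ?_
    · exact (hfI.comp (hgm _ (hdm n))).aestronglyMeasurable
    · exact Eventually.of_forall fun q => f.norm_coe_le_norm _
    · refine Eventually.of_forall fun q => ?_
      refine (f.continuous.tendsto _).comp ?_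
      rw [tendsto_pi_nhds]
      intro t
      have h3 := dy_tendsto (T q.1)
      have h4 : ∀ τ : ℝ≥0, (I.restrict (glue τ (stp τ (b q.1)) q.2).1) t =
          (b q.1).1 (min (max (max t.1 0) 0) τ) + q.2.1 (max (t.1 - τ) 0) := fun τ => rfl
      simp_rw [h4]
      have hc1 : Continuous fun x : ℝ => (b q.1).1 (min (max (max t.1 0) 0) x) := by
        have := (b q.1).2.1
        fun_prop
      have hc2 : Continuous fun x : ℝ => q.2.1 (max (t.1 - x) 0) := by
        have := q.2.2.1
        fun_prop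
      exact ((hc1.tendsto _).comp h3).add ((hc2.tendsto _).comp h3)
  simp_rw [h1] at h2
  exact (tendsto_nhds_unique h2 tendsto_const_nhds)

end Pool.Agent.Lib.MP_5dec12_pr
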