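import Mathlib
import Pool.Agent.Lib.MP_5dec12_pr.StrongMarkov

open MeasureTheory Set Filter ProbabilityTheory
open scoped ENNReal NNReal Topology

namespace Pool.Agent.Lib.MP_5dec12_pr

/-- a piece: duration and stopped path -/
abbrev Piece : Type := ℝ≥0 × E

/-- run a piece and continue -/
def Phi (x : Piece × E) : E := glue x.1.1 x.1.2 x.2

lemma meas_Phi : Measurable Phi :=
  meas_glue' measurable_fst.fst measurable_fst.snd measurable_snd

/-- iterated concatenation -/
def hh : ℕ → (ℤ → Piece) → E → E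
  | 0, _, v => v
  | n + 1, p, v => hh n p (Phi (p n, v))

lemma meas_hh (n : ℕ) : Measurable (fun x : (ℤ → Piece) × E => hh n x.1 x.2) := by
  induction n with
  | zero => exact measurable_snd
  | succ n ih =>
    have : (fun x : (ℤ → Piece) × E => hh (n + 1) x.1 x.2) =
        (fun x : (ℤ → Piece) × E => hh n x.1 x.2) ∘
          (fun x : (ℤ → Piece) × E => (x.1, Phi (x.1 n, x.2))) := rfl
    rw [this]
    exact ih.comp (measurable_fst.prodMk (meas_Phi.comp
      (((measurable_pi_apply _).comp measurable_fst).prodMk measurable_snd)))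

lemma hh_congr {n : ℕ} {p q : ℤ → Piece} (h : ∀ k : ℕ, k < n → p k = q k) (v : E) :
    hh n p v = hh n q v := by
  induction n generalizing v with
  | zero => rfl
  | succ n ih =>
    simp only [hh]
    rw [h n (Nat.lt_succ_self n), ih fun k hk => h k (hk.trans (Nat.lt_succ_self n))]

lemma hh_apply {n : ℕ} {p : ℤ → Piece} {S : ℤ → ℝ} (h0 : S 0 = 0)
    (hS : ∀ k, S (k + 1) = S k + (p k).1) (v : E) {t : ℝ} (ht : 0 ≤ t) :
    (hh n p v).1 t = ∑ k ∈ Finset.range n, (p k).2.1 (max (t - S k) 0) +
      v.1 (max (t - S n) 0) := by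
  induction n generalizing v with
  | zero => simp [hh, h0, max_eq_left ht]
  | succ n ih =>
    simp only [hh]
    rw [ih, Finset.sum_range_succ, Phi, glue_apply, add_assoc]
    congr 1
    congr 1
    · simp
    · push_cast
      rw [hS]
      have hp : (0 : ℝ) ≤ (p n).1 := NNReal.coe_nonneg _
      rcases le_total (t - S n) 0 with h | h
      · rw [max_eq_right h, max_eq_right (by linarith), max_eq_right (by linarith)]
      · rw [max_eq_left h, sub_add_eq_sub_sub]

/-- forget the pieces with index `≥ n` -/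
def msk (n : ℤ) (p : ℤ → Piece) : ℤ → Piece := fun k => if k < n then p k else (0, ⟨fun _ => 0,
  continuous_const, rfl⟩)

lemma meas_msk (n : ℤ) : Measurable (msk n) := by
  refine measurable_pi_iff.2 fun k => ?_
  unfold msk
  split_ifs
  · exact measurable_pi_apply k
  · exact measurable_const

lemma msk_of_lt {n k : ℤ} (h : k < n) (p : ℤ → Piece) : msk n p k = p k := by simp [msk, h]

lemma msk_msk {m n : ℤ} (h : m ≤ n) (p : ℤ → Piece) : msk m (msk n p) = msk m p := by
  ext1 k
  unfold msk
  by_cases hk : k < m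
  · rw [if_pos hk, if_pos hk, if_pos (hk.trans_le h)]
  · rw [if_neg hk, if_neg hk]

variable {Ω : Type*} {mΩ : MeasurableSpace Ω} {P : Measure Ω} {β : Measure E}

/-- concatenation data -/
structure Cat (p : ℤ → Ω → Piece) (S : ℤ → Ω → ℝ) (y : Ω → E) (β : Measure E) (P : Measure Ω) :
    Prop where
  pm : ∀ k, Measurable (p k)
  ym : Measurable y
  ind : iIndepFun p P
  phi : ∀ k, ((P.map (p k)).prod β).map Phi = β
  stop : ∀ k ω t, (p k ω).2.1 t = (p k ω).2.1 (min (max t 0) (p k ω).1)
  S0 : ∀ ω, S 0 ω = 0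
  Ss : ∀ k ω, S (k + 1) ω = S k ω + (p k ω).1
  up : ∀ᵐ ω ∂P, ∀ M : ℝ, ∃ n : ℕ, M ≤ S n ω
  dn : ∀ᵐ ω ∂P, ∀ M : ℝ, ∃ n : ℕ, S (-n) ω ≤ -M
  eq : ∀ᵐ ω ∂P, ∀ k, ∀ t : ℝ, 0 ≤ t → t ≤ (p k ω).1 →
    (y ω).1 (S k ω + t) - (y ω).1 (S k ω) = (p k ω).2.1 t

variable {p : ℤ → Ω → Piece} {S : ℤ → Ω → ℝ} {y : Ω → E}

/-- deterministic concatenation formula -/
lemma concat_formula {p : ℤ → Piece} {S : ℤ → ℝ} {y : E}
    (stop : ∀ k t, (p k).2.1 t = (p k).2.1 (min (max t 0) (p k).1))
    (Ss : ∀ k, S (k + 1) = S k + (p k).1)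
    (eq : ∀ k, ∀ t : ℝ, 0 ≤ t → t ≤ (p k).1 → y.1 (S k + t) - y.1 (S k) = (p k).2.1 t)
    (a : ℤ) (n : ℕ) {t : ℝ} (h1 : S a ≤ t) (h2 : t ≤ S (a + n)) :
    y.1 t - y.1 (S a) = ∑ i ∈ Finset.range n, (p (a + i)).2.1 (max (t - S (a + i)) 0) := by
  have hmono : ∀ k, S k ≤ S (k + 1) := fun k => by
    rw [Ss]
    have : (0 : ℝ) ≤ (p k).1 := NNReal.coe_nonneg _
    linarith
  have hmono2 : ∀ (b : ℤ) (m : ℕ), S b ≤ S (b + m) := by
    intro b m
    induction m with
    | zero => simp
    | succ m ih =>
      refine ih.trans ?_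
      have := hmono (b + m)
      rw [add_assoc] at this
      exact_mod_cast this
  induction n generalizing t with
  | zero =>
    have : t = S a := le_antisymm (by simpa using h2) h1
    simp [this]
  | succ n ih =>
    rw [Finset.sum_range_succ]
    rcases le_total t (S (a + n)) with h | h
    · rw [ih h1 h, max_eq_right (a := t - S (a + n)) (by linarith), (p (a + n)).2.2.2, add_zero]
    · have hτ : S (a + (n + 1 : ℕ)) = S (a + n) + (p (a + n)).1 := by
        have := Ss (a + n)
        rw [add_assoc] at this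
        exact_mod_cast this
      have e1 := eq (a + n) (t - S (a + n)) (by linarith) (by rw [hτ] at h2; linarith)
      rw [add_sub_cancel] at e1
      have e2 := ih (hmono2 a n) le_rfl
      have e3 : ∀ i ∈ Finset.range n, (p (a + i)).2.1 (max (S (a + n) - S (a + i)) 0) =
          (p (a + i)).2.1 (max (t - S (a + i)) 0) := by
        intro i hi
        have hin : i + 1 ≤ n := by simpa using hi
        obtain ⟨m, rfl⟩ := Nat.exists_eq_add_of_le hin
        have h3 : S (a + i) + (p (a + i)).1 ≤ S (a + ((i + 1 + m : ℕ) : ℤ)) := by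
          rw [← Ss]
          have := hmono2 (a + i + 1) m
          convert this using 2
          push_cast
          ring
        rw [stop, stop (a + i) (max (t - S (a + i)) 0)]
        have h4 : (0 : ℝ) ≤ (p (a + i)).1 := NNReal.coe_nonneg _
        rw [max_eq_left (le_max_right _ _), max_eq_left (le_max_right _ _),
          min_eq_right (le_max_of_le_left (by linarith)),
          min_eq_right (le_max_of_le_left (by linarith))]
      rw [Finset.sum_congr rfl e3] at e2
      rw [max_eq_left (a := t - S (a + n)) (by linarith), ← e1, ← e2]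
      ring


lemma Cat.Pm (h : Cat p S y β P) : Measurable (fun ω k => p k ω) := measurable_pi_iff.2 h.pm

lemma Cat.msk_indep (h : Cat p S y β P) (n : ℤ) :
    IndepFun (fun ω => msk n (fun k => p k ω)) (p n) P := by
  have h1 := indep_iSup_of_disjoint (m := fun k => MeasurableSpace.comap (p k) inferInstance)
    (fun k => (h.pm k).comap_le) h.ind (S := Iio n) (T := {n}) (by simp)
  rw [IndepFun_iff_Indep]
  refine indep_of_indep_of_le_left (indep_of_indep_of_le_right h1 ?_) ?_
  · refine le_trans (le_of_eq rfl) (le_iSup₂_of_le n (mem_singleton n) le_rfl)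
  · set m := ⨆ i ∈ Iio n, MeasurableSpace.comap (p i) (inferInstance : MeasurableSpace Piece)
    have hm : @Measurable Ω (ℤ → Piece) m _ (fun ω => msk n (fun k => p k ω)) := by
      refine @measurable_pi_iff Ω ℤ (fun _ => Piece) m _ _ |>.2 fun k => ?_
      by_cases hk : k < n
      · have : (fun ω => msk n (fun k => p k ω) k) = p k := by
          ext1 ω
          rw [msk_of_lt hk]
        rw [this]
        have h2 : MeasurableSpace.comap (p k) (inferInstance : MeasurableSpace Piece) ≤ m :=
          le_iSup₂_of_le k hk le_rfl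
        exact (comap_measurable (p k)).mono h2 le_rfl
      · have : (fun ω => msk n (fun k => p k ω) k) = fun _ => ((0, ⟨fun _ => 0,
            continuous_const, rfl⟩) : Piece) := by
          ext1 ω
          simp [msk, hk]
        rw [this]
        exact measurable_const
    exact hm.comap_le

lemma Cat.step (h : Cat p S y β P) [IsProbabilityMeasure P] [IsProbabilityMeasure β] (n : ℤ) :
    (P.prod β).map (fun q => (msk n (fun k => p k q.1), Phi (p n q.1, q.2))) =
      (P.map (fun ω => msk n (fun k => p k ω))).prod β := by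
  set A : Ω → (ℤ → Piece) := fun ω => msk n (fun k => p k ω) with hA
  have hAm : Measurable A := (meas_msk n).comp h.Pm
  have hpn := h.pm n
  have h1 := (indepFun_iff_map_prod_eq_prod_map_map hAm.aemeasurable hpn.aemeasurable).1
    (h.msk_indep n)
  have e : (fun q : Ω × E => (A q.1, Phi (p n q.1, q.2))) =
      (Prod.map id Phi) ∘ (MeasurableEquiv.prodAssoc ∘ (Prod.map (fun ω => (A ω, p n ω)) id)) := by
    ext1 q
    rfl
  have m1 : Measurable (Prod.map (fun ω => (A ω, p n ω)) (id : E → E)) :=
    (hAm.prodMk hpn).prodMap measurable_id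
  have m2 : Measurable (MeasurableEquiv.prodAssoc : ((ℤ → Piece) × Piece) × E → _) :=
    MeasurableEquiv.measurable _
  rw [e, ← Measure.map_map (measurable_id.prodMap meas_Phi) (m2.comp m1),
    ← Measure.map_map m2 m1, ← Measure.map_prod_map _ _ (hAm.prodMk hpn) measurable_id, h1,
    Measure.map_id]
  have hfin : IsProbabilityMeasure (P.map A) := Measure.isProbabilityMeasure_map hAm.aemeasurable
  have hfin' : IsProbabilityMeasure (P.map (p n)) :=
    Measure.isProbabilityMeasure_map hpn.aemeasurable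
  rw [Measure.prodAssoc_prod, ← Measure.map_prod_map _ _ measurable_id meas_Phi, Measure.map_id,
    h.phi]

lemma Cat.law (h : Cat p S y β P) [IsProbabilityMeasure P] [IsProbabilityMeasure β] (n : ℕ) :
    (P.prod β).map (fun q => (msk 0 (fun k => p k q.1), hh n (fun k => p k q.1) q.2)) =
      (P.map (fun ω => msk 0 (fun k => p k ω))).prod β := by
  have hmm : ∀ n, Measurable (fun ω => msk n (fun k => p k ω)) := fun n =>
    (meas_msk n).comp h.Pm
  induction n with
  | zero =>
    have : (fun q : Ω × E => (msk 0 (fun k => p k q.1), hh 0 (fun k => p k q.1) q.2)) =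
        Prod.map (fun ω => msk 0 (fun k => p k ω)) id := rfl
    rw [this, ← Measure.map_prod_map _ _ (hmm 0) measurable_id, Measure.map_id]
  | succ n ih =>
    rw [← ih]
    set G : (ℤ → Piece) × E → (ℤ → Piece) × E := fun x => (msk 0 x.1, hh n x.1 x.2) with hG
    have hGm : Measurable G := ((meas_msk 0).comp measurable_fst).prodMk (meas_hh n)
    have e1 : (fun q : Ω × E => (msk 0 (fun k => p k q.1), hh (n + 1) (fun k => p k q.1) q.2)) =
        G ∘ (fun q => (msk n (fun k => p k q.1), Phi (p n q.1, q.2))) := by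
      ext1 q
      simp only [Function.comp_apply, hG, hh]
      rw [msk_msk (by positivity)]
      congr 1
      exact hh_congr (fun k hk => (msk_of_lt (by exact_mod_cast hk) _).symm) _
    have e2 : (fun q : Ω × E => (msk 0 (fun k => p k q.1), hh n (fun k => p k q.1) q.2)) =
        G ∘ (Prod.map (fun ω => msk n (fun k => p k ω)) id) := by
      ext1 q
      simp only [Function.comp_apply, hG, Prod.map, id]
      rw [msk_msk (by positivity)]
      congr 1
      exact hh_congr (fun k hk => (msk_of_lt (by exact_mod_cast hk) _).symm) _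
    have m1 : Measurable (fun q : Ω × E => (msk n (fun k => p k q.1), Phi (p n q.1, q.2))) :=
      ((hmm n).comp measurable_fst).prodMk (meas_Phi.comp
        (((h.pm n).comp measurable_fst).prodMk measurable_snd))
    rw [e1, e2, ← Measure.map_map hGm m1, ← Measure.map_map hGm ((hmm n).prodMap measurable_id),
      h.step n, ← Measure.map_prod_map _ _ (hmm n) measurable_id, Measure.map_id]

lemma Cat.Smono (h : Cat p S y β P) (ω : Ω) : Monotone (fun k => S k ω) := by
  refine monotone_int_of_le_succ fun k => ?_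
  rw [h.Ss]
  have : (0 : ℝ) ≤ (p k ω).1 := NNReal.coe_nonneg _
  linarith

/-- marginal form of the limit -/
lemma Cat.limit (h : Cat p S y β P) (hβ : IsBeta β) [IsProbabilityMeasure P] (I : Finset ℝ) :
    P.map (fun ω => (msk 0 (fun k => p k ω), I.restrict (fwd (y ω)).1)) =
      (P.map (fun ω => msk 0 (fun k => p k ω))).prod (β.map (fun w => I.restrict w.1)) := by
  have hβp := hβ.prob
  have hmm : Measurable (fun ω => msk 0 (fun k => p k ω)) := (meas_msk 0).comp h.Pm
  have hI : Measurable (fun w : E => I.restrict w.1) := measurable_pi_iff.2 fun t => meas_eval _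
  have hIy : Measurable (fun ω => I.restrict (fwd (y ω)).1) := hI.comp (meas_fwd.comp h.ym)
  have hfin : IsProbabilityMeasure (P.map (fun ω => msk 0 (fun k => p k ω))) :=
    Measure.isProbabilityMeasure_map hmm.aemeasurable
  have hfin2 : IsProbabilityMeasure (β.map (fun w => I.restrict w.1)) :=
    Measure.isProbabilityMeasure_map hI.aemeasurable
  symm
  refine Measure.prod_eq fun A C hA hC => ?_
  rw [Measure.map_apply (hmm.prodMk hIy) (hA.prod hC)]
  -- the approximating sets
  let As : ℕ → Set (Ω × E) := fun n => {q | msk 0 (fun k => p k q.1) ∈ A ∧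
    I.restrict (fwd (hh n (fun k => p k q.1) q.2)).1 ∈ C}
  let A' : Set (Ω × E) := {q | msk 0 (fun k => p k q.1) ∈ A ∧ I.restrict (fwd (y q.1)).1 ∈ C}
  have hhm : ∀ n, Measurable (fun q : Ω × E => hh n (fun k => p k q.1) q.2) := fun n =>
    (meas_hh n).comp ((h.Pm.comp measurable_fst).prodMk measurable_snd)
  have hAs : ∀ n, MeasurableSet (As n) := fun n =>
    MeasurableSet.inter ((hmm.comp measurable_fst) hA) ((hI.comp (meas_fwd.comp (hhm n))) hC)
  have hA'm : MeasurableSet A' :=
    MeasurableSet.inter ((hmm.comp measurable_fst) hA) ((hIy.comp measurable_fst) hC)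
  have hlim : Tendsto (fun n => (P.prod β) (As n)) atTop (𝓝 ((P.prod β) A')) := by
    refine tendsto_measure_of_ae_tendsto_indicator_of_isFiniteMeasure _ hA'm hAs ?_
    have h1 : ∀ᵐ q ∂(P.prod β), (∀ M : ℝ, ∃ n : ℕ, M ≤ S n q.1) ∧ ∀ k, ∀ t : ℝ, 0 ≤ t →
        t ≤ (p k q.1).1 → (y q.1).1 (S k q.1 + t) - (y q.1).1 (S k q.1) = (p k q.1).2.1 t :=
      Measure.quasiMeasurePreserving_fst.ae (h.up.and h.eq)
    filter_upwards [h1] with q hq
    obtain ⟨M, hM⟩ : ∃ M : ℝ, ∀ t ∈ I, t ≤ M := by
      by_cases hne : I.Nonempty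
      · exact ⟨I.max' hne, fun t ht => I.le_max' t ht⟩
      · exact ⟨0, fun t ht => absurd ⟨t, ht⟩ hne⟩
    obtain ⟨N, hN⟩ := hq.1 (max M 0)
    filter_upwards [eventually_ge_atTop N] with n hn
    have hSn : max M 0 ≤ S n q.1 := hN.trans (h.Smono q.1 (by exact_mod_cast hn))
    have e : I.restrict (fwd (hh n (fun k => p k q.1) q.2)).1 = I.restrict (fwd (y q.1)).1 := by
      ext t
      simp only [Finset.restrict_def, fwd_apply]
      have ht : max t.1 0 ≤ S n q.1 := (max_le_max (hM t.1 t.2) le_rfl).trans hSn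
      rw [hh_apply (S := fun k => S k q.1) (p := fun k => p k q.1) (h.S0 q.1)
        (fun k => h.Ss k q.1) q.2 (le_max_right _ _)]
      have e1 := concat_formula (S := fun k => S k q.1) (p := fun k => p k q.1)
        (fun k => h.stop k q.1) (fun k => h.Ss k q.1) hq.2 0 n (t := max t.1 0) (by rw [h.S0]; exact le_max_right _ _) (by simpa using ht)
      rw [h.S0, (y q.1).2.2, sub_zero] at e1
      rw [e1, max_eq_right (a := max t.1 0 - S n q.1) (by linarith), q.2.2.2, add_zero]
      simp
    simp only [As, A', mem_ofPred_eq, e]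
  have hconst : ∀ n, (P.prod β) (As n) =
      (P.map (fun ω => msk 0 (fun k => p k ω))) A * (β.map (fun w => I.restrict w.1)) C := by
    intro n
    have hC' : MeasurableSet {w : E | I.restrict (fwd w).1 ∈ C} := (hI.comp meas_fwd) hC
    have e1 : As n = (fun q : Ω × E => (msk 0 (fun k => p k q.1), hh n (fun k => p k q.1) q.2)) ⁻¹'
        (A ×ˢ {w : E | I.restrict (fwd w).1 ∈ C}) := by
      ext q
      simp [As]
    have mm : Measurable (fun q : Ω × E => (msk 0 (fun k => p k q.1),
        hh n (fun k => p k q.1) q.2)) := (hmm.comp measurable_fst).prodMk (hhm n)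
    rw [e1, ← Measure.map_apply mm (hA.prod hC'), h.law n, Measure.prod_prod]
    congr 1
    rw [Measure.map_apply hI hC]
    refine measure_congr ?_
    filter_upwards [hβ.fw] with w hw
    apply propext
    change I.restrict (fwd w).1 ∈ C ↔ I.restrict w.1 ∈ C
    rw [hw]
  simp_rw [hconst] at hlim
  have h2 := tendsto_nhds_unique hlim tendsto_const_nhds
  rw [← h2]
  have e3 : A' = ((fun ω => (msk 0 (fun k => p k ω), I.restrict (fwd (y ω)).1)) ⁻¹' (A ×ˢ C)) ×ˢ
      (univ : Set E) := by
    ext q
    simp [A']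
  rw [e3, Measure.prod_prod, measure_univ, mul_one]


lemma Cat.fwd_law (h : Cat p S y β P) (hβ : IsBeta β) [IsProbabilityMeasure P] :
    P.map (fun ω => fwd (y ω)) = β := by
  have hβp := hβ.prob
  have hmm : Measurable (fun ω => msk 0 (fun k => p k ω)) := (meas_msk 0).comp h.Pm
  have hyf : Measurable (fun ω => fwd (y ω)) := meas_fwd.comp h.ym
  have : IsProbabilityMeasure (P.map (fun ω => fwd (y ω))) :=
    Measure.isProbabilityMeasure_map hyf.aemeasurable
  refine E_fdd_ext fun I => ?_
  have hI : Measurable (fun w : E => I.restrict w.1) := measurable_pi_iff.2 fun t => meas_eval _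
  have hfin : IsProbabilityMeasure (P.map (fun ω => msk 0 (fun k => p k ω))) :=
    Measure.isProbabilityMeasure_map hmm.aemeasurable
  have hIy : Measurable (fun ω => I.restrict (fwd (y ω)).1) := hI.comp hyf
  have h1 := congrArg (fun ν => ν.map Prod.snd) (h.limit hβ I)
  simp only [Measure.map_snd_prod, measure_univ, one_smul] at h1
  rw [Measure.map_map measurable_snd (hmm.prodMk hIy)] at h1
  rw [Measure.map_map hI hyf]
  exact h1

lemma Cat.fwd_indep (h : Cat p S y β P) (hβ : IsBeta β) [IsProbabilityMeasure P] :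
    IndepFun (fun ω => msk 0 (fun k => p k ω)) (fun ω => fwd (y ω)) P := by
  have hβp := hβ.prob
  have hmm : Measurable (fun ω => msk 0 (fun k => p k ω)) := (meas_msk 0).comp h.Pm
  have hyf : Measurable (fun ω => fwd (y ω)) := meas_fwd.comp h.ym
  have h1 : IndepFun (fun ω => msk 0 (fun k => p k ω)) (fun ω (t : ℝ) => (fwd (y ω)).1 t) P := by
    refine IndepFun.indepFun_process (Y := fun (t : ℝ) ω => (fwd (y ω)).1 t) hmm
      (fun t => (meas_eval t).comp hyf) fun I => ?_
    have hI : Measurable (fun w : E => I.restrict w.1) := measurable_pi_iff.2 fun t => meas_eval _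
    have hIy : Measurable (fun ω => I.restrict (fwd (y ω)).1) := hI.comp hyf
    have h2 := h.limit hβ I
    have h3 : P.map (fun ω => I.restrict (fwd (y ω)).1) = β.map (fun w : E => I.restrict w.1) := by
      conv_rhs => rw [← h.fwd_law hβ]
      rw [Measure.map_map hI hyf]
      rfl
    rw [← h3] at h2
    exact (indepFun_iff_map_prod_eq_prod_map_map hmm.aemeasurable hIy.aemeasurable).2 h2
  exact (indepFun_E (f := fun ω => fwd (y ω)) (φ := id) measurable_id (fun ω => rfl) h1.symm).symm

/-- left end points of the pieces with negative index -/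
noncomputable def SN (p : ℤ → Piece) (m : ℕ) : ℝ := -∑ i ∈ Finset.range m, ((p (-(i + 1 : ℤ))).1 : ℝ)

/-- past of the concatenation computed from finitely many pieces -/
noncomputable def DD (m : ℕ) (p : ℤ → Piece) (t : ℝ) : ℝ :=
  ∑ i ∈ Finset.range m, ((p (-(i + 1 : ℤ))).2.1 (max (-(max t 0) - SN p (i + 1)) 0) -
    (p (-(i + 1 : ℤ))).2.1 (max (- SN p (i + 1)) 0))

lemma meas_SN (m : ℕ) : Measurable (fun p => SN p m) := by
  unfold SN
  refine (Finset.measurable_sum _ fun i _ => ?_).neg
  exact (measurable_pi_apply _).fst.coe_nnreal_real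

lemma meas_DD (m : ℕ) (t : ℝ) : Measurable (fun p => DD m p t) := by
  unfold DD
  refine Finset.measurable_sum _ fun i _ => ?_
  refine Measurable.sub ?_ ?_
  · exact meas_evalc (f := fun p : ℤ → Piece => (p (-(i + 1 : ℤ))).2) (measurable_pi_apply _).snd
      ((measurable_const.sub (meas_SN _)).max measurable_const)
  · exact meas_evalc (f := fun p : ℤ → Piece => (p (-(i + 1 : ℤ))).2) (measurable_pi_apply _).snd
      ((meas_SN _).neg.max measurable_const)

lemma SN_msk (m : ℕ) (p : ℤ → Piece) : SN (msk 0 p) m = SN p m := by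
  unfold SN
  congr 1
  refine Finset.sum_congr rfl fun i _ => ?_
  rw [msk_of_lt (by linarith [Int.natCast_nonneg i])]

lemma DD_msk (m : ℕ) (p : ℤ → Piece) (t : ℝ) : DD m (msk 0 p) t = DD m p t := by
  unfold DD
  refine Finset.sum_congr rfl fun i _ => ?_
  rw [msk_of_lt (by linarith [Int.natCast_nonneg i]), SN_msk]

lemma Cat.SN_eq (h : Cat p S y β P) (ω : Ω) (m : ℕ) :
    SN (fun k => p k ω) m = S (-m) ω := by
  induction m with
  | zero => simp [SN, h.S0]
  | succ m ih =>
    have h1 := h.Ss (-(m + 1 : ℤ)) ω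
    have h2 : (-(m + 1 : ℤ) + 1) = -(m : ℤ) := by ring
    rw [h2, ← ih] at h1
    unfold SN at h1 ⊢
    rw [Finset.sum_range_succ]
    push_cast at h1 ⊢
    linarith

lemma Cat.DD_eq (h : Cat p S y β P) {ω : Ω} (heq : ∀ k, ∀ t : ℝ, 0 ≤ t → t ≤ (p k ω).1 →
    (y ω).1 (S k ω + t) - (y ω).1 (S k ω) = (p k ω).2.1 t) (m : ℕ) {t : ℝ}
    (ht : S (-m) ω ≤ -(max t 0)) : DD m (fun k => p k ω) t = (bwd (y ω)).1 t := by
  have hf : ∀ u : ℝ, S (-m) ω ≤ u → u ≤ 0 → (y ω).1 u - (y ω).1 (S (-m) ω) =
      ∑ i ∈ Finset.range m, (p (-(i + 1 : ℤ)) ω).2.1 (max (u - S (-(i + 1 : ℤ)) ω) 0) := by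
    intro u hu1 hu2
    have e := concat_formula (S := fun k => S k ω) (p := fun k => p k ω)
        (fun k => h.stop k ω) (fun k => h.Ss k ω) heq (-m) m (t := u) hu1 (by simpa [h.S0] using hu2)
    rw [e, ← Finset.sum_range_reflect]
    refine Finset.sum_congr rfl fun i hi => ?_
    have him : i < m := by simpa using hi
    have : (-(m : ℤ) + ((m - 1 - i : ℕ) : ℤ)) = -(i + 1 : ℤ) := by
      omega
    rw [this]
  have hm0 : S (-m) ω ≤ 0 := ht.trans (by simp)
  have e1 := hf (-(max t 0)) ht (by simp)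
  have e2 := hf 0 hm0 le_rfl
  rw [(y ω).2.2] at e2
  unfold DD
  rw [bwd_apply, Finset.sum_sub_distrib]
  have hS : ∀ i : ℕ, SN (fun k => p k ω) (i + 1) = S (-(i + 1 : ℤ)) ω := by
    intro i
    rw [h.SN_eq]
    push_cast
    rfl
  simp_rw [hS]
  simp_rw [zero_sub] at e2
  rw [← e1, ← e2]
  ring

theorem Cat.bwd_fwd (h : Cat p S y β P) (hβ : IsBeta β) [IsProbabilityMeasure P] :
    P.map (fun ω => (bwd (y ω), fwd (y ω))) = (P.map (fun ω => bwd (y ω))).prod β := by
  have hβp := hβ.prob
  have hmm : Measurable (fun ω => msk 0 (fun k => p k ω)) := (meas_msk 0).comp h.Pm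
  have hyf : Measurable (fun ω => fwd (y ω)) := meas_fwd.comp h.ym
  have hyb : Measurable (fun ω => bwd (y ω)) := meas_bwd.comp h.ym
  have hind := h.fwd_indep hβ
  have h1 : IndepFun (fun ω (t : ℝ) => (bwd (y ω)).1 t) (fun ω => fwd (y ω)) P := by
    refine IndepFun.process_indepFun (X := fun (t : ℝ) ω => (bwd (y ω)).1 t)
      (fun t => (meas_eval t).comp hyb) hyf fun I => ?_
    have hI : Measurable (fun w : E => I.restrict w.1) := measurable_pi_iff.2 fun t => meas_eval _
    have hDm : ∀ m, Measurable (fun ω => I.restrict (DD m (fun k => p k ω))) := fun m =>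
      measurable_pi_iff.2 fun t => (meas_DD m t).comp h.Pm
    have hIy : Measurable (fun ω => I.restrict (bwd (y ω)).1) := hI.comp hyb
    have hm : ∀ m, IndepFun (fun ω => I.restrict (DD m (fun k => p k ω)))
        (fun ω => fwd (y ω)) P := by
      intro m
      have h2 : (fun ω => I.restrict (DD m (fun k => p k ω))) =
          (fun p : ℤ → Piece => I.restrict (DD m p)) ∘ (fun ω => msk 0 (fun k => p k ω)) := by
        ext ω t
        simp only [Function.comp_apply, Finset.restrict_def]
        rw [DD_msk]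
      rw [h2]
      refine hind.comp (φ := fun p : ℤ → Piece => I.restrict (DD m p)) (ψ := id) ?_ measurable_id
      exact measurable_pi_iff.2 fun t => meas_DD m t
    have hev : ∀ᵐ ω ∂P, ∀ᶠ m : ℕ in atTop,
        I.restrict (DD m (fun k => p k ω)) = I.restrict (bwd (y ω)).1 := by
      filter_upwards [h.dn, h.eq] with ω hdn heq
      obtain ⟨M, hM⟩ : ∃ M : ℝ, ∀ t ∈ I, t ≤ M := by
        by_cases hne : I.Nonempty
        · exact ⟨I.max' hne, fun t ht => I.le_max' t ht⟩
        · exact ⟨0, fun t ht => absurd ⟨t, ht⟩ hne⟩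
      obtain ⟨N, hN⟩ := hdn (max M 0)
      filter_upwards [eventually_ge_atTop N] with m hm
      ext t
      simp only [Finset.restrict_def]
      refine h.DD_eq heq m ?_
      have h3 : S (-m) ω ≤ S (-N) ω := h.Smono ω (neg_le_neg (by exact_mod_cast hm))
      have h4 : max t.1 0 ≤ max M 0 := max_le_max (hM t.1 t.2) le_rfl
      linarith
    rw [indepFun_iff_measure_inter_preimage_eq_mul]
    intro A C hA hC
    have t1 : Tendsto (fun m => P ((fun ω => I.restrict (DD m (fun k => p k ω))) ⁻¹' A ∩
        (fun ω => fwd (y ω)) ⁻¹' C)) atTop (𝓝 (P ((fun ω => I.restrict (bwd (y ω)).1) ⁻¹' A ∩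
        (fun ω => fwd (y ω)) ⁻¹' C))) := by
      refine tendsto_measure_of_ae_tendsto_indicator_of_isFiniteMeasure _
        ((hIy hA).inter (hyf hC)) (fun m => ((hDm m) hA).inter (hyf hC)) ?_
      filter_upwards [hev] with ω hω
      filter_upwards [hω] with m hm
      simp only [mem_inter_iff, mem_preimage, hm]
    have t2 : Tendsto (fun m => P ((fun ω => I.restrict (DD m (fun k => p k ω))) ⁻¹' A)) atTop
        (𝓝 (P ((fun ω => I.restrict (bwd (y ω)).1) ⁻¹' A))) := by
      refine tendsto_measure_of_ae_tendsto_indicator_of_isFiniteMeasure _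
        (hIy hA) (fun m => ((hDm m) hA)) ?_
      filter_upwards [hev] with ω hω
      filter_upwards [hω] with m hm
      simp only [mem_preimage, hm]
    have t3 : ∀ m, P ((fun ω => I.restrict (DD m (fun k => p k ω))) ⁻¹' A ∩
        (fun ω => fwd (y ω)) ⁻¹' C) = P ((fun ω => I.restrict (DD m (fun k => p k ω))) ⁻¹' A) *
          P ((fun ω => fwd (y ω)) ⁻¹' C) := fun m =>
      (indepFun_iff_measure_inter_preimage_eq_mul.1 (hm m)) A C hA hC
    simp_rw [t3] at t1
    have t4 := ENNReal.Tendsto.mul_const (b := P ((fun ω => fwd (y ω)) ⁻¹' C)) t2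
      (Or.inr (measure_ne_top _ _))
    exact tendsto_nhds_unique t1 t4
  have h2 : IndepFun (fun ω => bwd (y ω)) (fun ω => fwd (y ω)) P :=
    indepFun_E (f := fun ω => bwd (y ω)) (φ := id) measurable_id (fun ω => rfl) h1
  have h3 := (indepFun_iff_map_prod_eq_prod_map_map hyb.aemeasurable hyf.aemeasurable).1 h2
  rwa [h.fwd_law hβ] at h3

end Pool.Agent.Lib.MP_5dec12_pr
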