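import Mathlib
import Pool.Agent.Lib.MP_5dec12_pr.Avg
import Pool.Agent.Lib.MP_5dec12_pr.AC

open MeasureTheory Set Filter ProbabilityTheory
open scoped ENNReal NNReal Topology

namespace Pool.Agent.Lib.MP_5dec12_pr

variable {Ω : Type*} {mΩ : MeasurableSpace Ω} {P : Measure Ω} {β : Measure E}

lemma map_withDensity_comp' {X Y : Type*} [MeasurableSpace X] [MeasurableSpace Y] {ρ : Measure X}
    {S : X → Y} (hS : Measurable S) {κ : Y → ℝ≥0∞}
    (hκ : Measurable κ) : (ρ.withDensity (fun x => κ (S x))).map S = (ρ.map S).withDensity κ := by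
  ext A hA
  rw [Measure.map_apply hS hA, withDensity_apply _ (hS hA), withDensity_apply _ hA,
    setLIntegral_map hA hκ hS]

/-- the coupling measure on paths and times -/
theorem exists_coupling (hβ : IsBeta β) {L : Measure (E × ℝ)} [IsProbabilityMeasure L]
    (hL : L.map (fun x => th x.2 x.1) ≪ WW β) :
    ∃ G : Measure (E × ℝ), G.map Prod.fst = L.map Prod.fst ∧
      G.map (fun x => th x.2 x.1) = WW β := by
  have hWp := WW_prob hβ
  have mθ : Measurable (fun x : E × ℝ => th x.2 x.1) := meas_th' measurable_snd measurable_fst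
  have hρp : IsProbabilityMeasure (L.map (fun x => th x.2 x.1)) :=
    Measure.isProbabilityMeasure_map mθ.aemeasurable
  obtain ⟨a, ha, ha1, hpush⟩ := exists_weights (fun k : ℕ => meas_th (-(k : ℝ)))
    (fun k => by rw [WW_shift hβ]) hL (avgProp hβ)
  have hsh : ∀ k : ℕ, Measurable (fun x : E × ℝ => (x.1, x.2 - (k : ℝ))) := fun k =>
    measurable_fst.prodMk (measurable_snd.sub_const _)
  refine ⟨Measure.sum (fun k => (L.withDensity (fun x => a k (th x.2 x.1))).map
    (fun x => (x.1, x.2 - (k : ℝ)))), ?_, ?_⟩
  · ext A hA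
    rw [Measure.map_apply measurable_fst hA, Measure.map_apply measurable_fst hA,
      Measure.sum_apply _ (measurable_fst hA)]
    have h1 : ∀ k : ℕ, (L.withDensity (fun x => a k (th x.2 x.1))).map
        (fun x => (x.1, x.2 - (k : ℝ))) (Prod.fst ⁻¹' A) =
        ∫⁻ x in Prod.fst ⁻¹' A, a k (th x.2 x.1) ∂L := by
      intro k
      rw [Measure.map_apply (hsh k) (measurable_fst hA), withDensity_apply]
      · rfl
      · exact (hsh k) (measurable_fst hA)
    simp_rw [h1]
    have hak : ∀ k, Measurable (fun x : E × ℝ => a k (th x.2 x.1)) := fun k => (ha k).comp mθ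
    rw [← lintegral_tsum (fun k => (hak k).aemeasurable)]
    have h2 : ∀ᵐ x ∂L, ∑' k, a k (th x.2 x.1) = 1 := ae_of_ae_map mθ.aemeasurable ha1
    rw [lintegral_congr_ae (ae_restrict_of_ae h2)]
    simp
  · rw [Measure.map_sum mθ.aemeasurable, ← hpush]
    unfold push
    congr 1
    ext1 k
    rw [Measure.map_map mθ (hsh k), ← map_withDensity_comp' mθ (ha k),
      Measure.map_map (meas_th _) mθ]
    congr 1
    ext1 x
    simp only [Function.comp_apply, th_th]
    rfl

lemma map_projIcc : (volume.restrict (Icc (0 : ℝ) 1)).map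
    (projIcc (0 : ℝ) 1 zero_le_one) = (volume : Measure unitInterval) := by
  have h1 : (volume : Measure unitInterval).map (Subtype.val) = volume.restrict (Icc (0 : ℝ) 1) :=
    (measurePreserving_subtype_coe measurableSet_Icc).map_eq
  rw [← h1, Measure.map_map (continuous_projIcc.measurable) measurable_subtype_coe]
  have : projIcc (0 : ℝ) 1 zero_le_one ∘ (Subtype.val : unitInterval → ℝ) = id := by
    ext1 x
    exact projIcc_val zero_le_one x
  rw [this, Measure.map_id]

/-- transfer of a coupling to a space carrying an independent uniform variable -/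
theorem transfer [IsProbabilityMeasure P] {x : Ω → E} (hx : Measurable x) {V : Ω → ℝ}
    (hV : Measurable V) (hVl : P.map V = volume.restrict (Icc (0 : ℝ) 1)) (hI : IndepFun x V P)
    {G : Measure (E × ℝ)} (hG : G.map Prod.fst = P.map x) :
    ∃ S : Ω → ℝ, Measurable S ∧ P.map (fun ω => (x ω, S ω)) = G := by
  have hGp : IsProbabilityMeasure G := by
    refine ⟨?_⟩
    have := congrArg (fun ν => ν univ) hG
    rw [Measure.map_apply measurable_fst MeasurableSet.univ,
      Measure.map_apply hx MeasurableSet.univ] at this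
    simpa using this
  obtain ⟨f, hf, hfκ⟩ := Kernel.exists_measurable_map_eq_unitInterval G.condKernel
  let V' : Ω → unitInterval := fun ω => projIcc (0 : ℝ) 1 zero_le_one (V ω)
  have hV' : Measurable V' := continuous_projIcc.measurable.comp hV
  have hV'l : P.map V' = volume := by
    have : V' = projIcc (0 : ℝ) 1 zero_le_one ∘ V := rfl
    rw [this, ← Measure.map_map continuous_projIcc.measurable hV, hVl, map_projIcc]
  have hI' : IndepFun x V' P := hI.comp measurable_id continuous_projIcc.measurable
  have hprod := (indepFun_iff_map_prod_eq_prod_map_map hx.aemeasurable hV'.aemeasurable).1 hI'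
  rw [hV'l, ← hG] at hprod
  refine ⟨fun ω => f (x ω) (V' ω), hf.comp (hx.prodMk hV'), ?_⟩
  have hm : Measurable (fun q : E × unitInterval => (q.1, f q.1 q.2)) := measurable_fst.prodMk hf
  have e1 : P.map (fun ω => (x ω, f (x ω) (V' ω))) =
      ((G.map Prod.fst).prod volume).map (fun q : E × unitInterval => (q.1, f q.1 q.2)) := by
    rw [← hprod, Measure.map_map hm (hx.prodMk hV')]
    rfl
  rw [e1]
  conv_rhs => rw [← G.disintegrate G.condKernel]
  ext A hA
  rw [Measure.map_apply hm hA, Measure.prod_apply (hm hA), Measure.compProd_apply hA]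
  refine lintegral_congr fun z => ?_
  have hfz : Measurable (f z) := hf.comp measurable_prodMk_left
  rw [← hfκ z, Measure.map_apply hfz (measurable_prodMk_left hA)]
  rfl

end Pool.Agent.Lib.MP_5dec12_pr
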