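import Mathlib
import Pool.Agent.Lib.MP_5dec12_pr.Defs
import Pool.Agent.Lib.MP_5dec12_pr.Concat
import Pool.Agent.Lib.MP_5dec12_pr.Transfer

open MeasureTheory Set Filter ProbabilityTheory
open scoped ENNReal NNReal Topology

namespace Pool.Agent.Lib.MP_5dec12_pr

variable {Ω : Type*} {mΩ : MeasurableSpace Ω} {P : Measure Ω} {β : Measure E}

/-- From a coupling to the two-sided Brownian motion statement. -/
lemma twoSided_of_law (hβ : IsBeta β) [IsProbabilityMeasure P] {X : ℝ → Ω → ℝ} {x : Ω → E}
    (hx : Measurable x) (hxX : ∀ᵐ ω ∂P, ∀ t, (x ω).1 t = X t ω - X 0 ω)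
    {S : Ω → ℝ} (hS : Measurable S) (hlaw : P.map (fun ω => th (S ω) (x ω)) = WW β) :
    IsTwoSidedBM X P := by
  have hβp := hβ.prob
  have mz : Measurable (fun ω => th (S ω) (x ω)) := meas_th' hS hx
  have mf : Measurable (fun ω => fwd (th (S ω) (x ω))) := meas_fwd.comp mz
  have mb : Measurable (fun ω => bwd (th (S ω) (x ω))) := meas_bwd.comp mz
  have hpair : P.map (fun ω => (bwd (th (S ω) (x ω)), fwd (th (S ω) (x ω)))) = β.prod β := by
    rw [← WW_bwd_fwd hβ, ← hlaw, Measure.map_map (meas_bwd.prodMk meas_fwd) mz]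
    rfl
  have eb : P.map (fun ω => bwd (th (S ω) (x ω))) = β := by
    have := congrArg (fun ν => ν.map Prod.fst) hpair
    simp only [Measure.map_fst_prod, measure_univ, one_smul] at this
    rwa [Measure.map_map measurable_fst (mb.prodMk mf)] at this
  have ef : P.map (fun ω => fwd (th (S ω) (x ω))) = β := by
    have := congrArg (fun ν => ν.map Prod.snd) hpair
    simp only [Measure.map_snd_prod, measure_univ, one_smul] at this
    rwa [Measure.map_map measurable_snd (mb.prodMk mf)] at this
  have hind : IndepFun (fun ω => bwd (th (S ω) (x ω))) (fun ω => fwd (th (S ω) (x ω))) P := by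
    rw [indepFun_iff_map_prod_eq_prod_map_map mb.aemeasurable mf.aemeasurable, hpair, eb, ef]
  have hf : ∀ᵐ ω ∂P, ∀ t : ℝ≥0, (fwd (th (S ω) (x ω))).1 t = X (S ω + t) ω - X (S ω) ω := by
    filter_upwards [hxX] with ω h t
    rw [fwd_apply, th_apply, max_eq_left t.coe_nonneg, h, h]
    ring
  have hb : ∀ᵐ ω ∂P, ∀ t : ℝ≥0, (bwd (th (S ω) (x ω))).1 t = X (S ω - t) ω - X (S ω) ω := by
    filter_upwards [hxX] with ω h t
    rw [bwd_apply, th_apply, max_eq_left t.coe_nonneg, h, h, ← sub_eq_add_neg]
    ring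
  refine ⟨S, hS, ⟨?_, ?_⟩, ⟨?_, ?_⟩, ?_⟩
  · have h1 : IsPreBrownianReal (fun (t : ℝ≥0) ω => (fwd (th (S ω) (x ω))).1 t) P := by
      rw [← preBM_map_iff mf, ef]
      exact hβ.bm
    refine h1.congr fun t => ?_
    filter_upwards [hf] with ω h using h t
  · filter_upwards [hf] with ω h
    have : (fun t : ℝ≥0 => X (S ω + t) ω - X (S ω) ω) =
        fun t : ℝ≥0 => (fwd (th (S ω) (x ω))).1 t := funext fun t => (h t).symm
    rw [this]
    exact (fwd (th (S ω) (x ω))).2.1.comp NNReal.continuous_coe
  · have h1 : IsPreBrownianReal (fun (t : ℝ≥0) ω => (bwd (th (S ω) (x ω))).1 t) P := by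
      rw [← preBM_map_iff mb, eb]
      exact hβ.bm
    refine h1.congr fun t => ?_
    filter_upwards [hb] with ω h using h t
  · filter_upwards [hb] with ω h
    have : (fun t : ℝ≥0 => X (S ω - t) ω - X (S ω) ω) =
        fun t : ℝ≥0 => (bwd (th (S ω) (x ω))).1 t := funext fun t => (h t).symm
    rw [this]
    exact (bwd (th (S ω) (x ω))).2.1.comp NNReal.continuous_coe
  · have mc : Measurable (fun (w : E) (t : ℝ≥0) => w.1 t) := measurable_pi_iff.2 fun t => meas_eval _
    have h1 := hind.symm.comp mc mc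
    refine h1.congr ?_ ?_
    · filter_upwards [hf] with ω h
      ext t
      exact h t
    · filter_upwards [hb] with ω h
      ext t
      exact h t

/-- The analytic core. -/
theorem core (hβ : IsBeta β) [IsProbabilityMeasure P] {X : ℝ → Ω → ℝ} {x : Ω → E}
    (hx : Measurable x) (hxX : ∀ᵐ ω ∂P, ∀ t, (x ω).1 t = X t ω - X 0 ω)
    {U : Ω → ℝ} (hU : Measurable U)
    (h : P.map (fun ω => (bwd (th (U ω) (x ω)), fwd (th (U ω) (x ω)))) =
      (P.map (fun ω => bwd (th (U ω) (x ω)))).prod β)
    {R : ℕ → Ω → ℝ} (hRm : ∀ n, Measurable (R n))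
    (hRt : ∀ᵐ ω ∂P, Tendsto (fun n => R n ω) atTop atTop)
    (hRl : ∀ n, P.map (fun ω => bwd (th (R n ω) (x ω))) = β)
    {V : Ω → ℝ} (hV : Measurable V) (hVl : P.map V = volume.restrict (Icc (0 : ℝ) 1))
    (hI : IndepFun x V P) : IsTwoSidedBM X P := by
  have hβp := hβ.prob
  set y : Ω → E := fun ω => th (U ω) (x ω) with hy
  have my : Measurable y := meas_th' hU hx
  have hac := smear_ac hβ my h (R := fun n ω => R n ω - U ω) (fun n => (hRm n).sub hU)
    (by
      filter_upwards [hRt] with ω hω
      exact tendsto_atTop_add_const_right _ _ hω)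
    (by
      intro n
      have : (fun ω => bwd (th (R n ω - U ω) (y ω))) = fun ω => bwd (th (R n ω) (x ω)) := by
        ext1 ω
        rw [hy]
        simp only [th_th, add_sub_cancel]
      rw [this]
      exact hRl n)
  set L : Measure (E × ℝ) := (P.prod (volume.restrict (Icc (0 : ℝ) 1))).map
    (fun q => (x q.1, U q.1 + q.2)) with hL
  have mL : Measurable (fun q : Ω × ℝ => (x q.1, U q.1 + q.2)) :=
    (hx.comp measurable_fst).prodMk ((hU.comp measurable_fst).add measurable_snd)
  have hvp : IsProbabilityMeasure (volume.restrict (Icc (0 : ℝ) 1)) := ⟨by simp⟩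
  have hLp : IsProbabilityMeasure L := Measure.isProbabilityMeasure_map mL.aemeasurable
  have mθ : Measurable (fun x : E × ℝ => th x.2 x.1) := meas_th' measurable_snd measurable_fst
  have hLac : L.map (fun x => th x.2 x.1) ≪ WW β := by
    rw [hL, Measure.map_map mθ mL]
    convert hac using 2
    ext1 q
    simp only [Function.comp_apply, hy, th_th]
  obtain ⟨G, hG1, hG2⟩ := exists_coupling hβ hLac
  have hG3 : G.map Prod.fst = P.map x := by
    rw [hG1, hL, Measure.map_map measurable_fst mL]
    have : (Prod.fst ∘ fun q : Ω × ℝ => (x q.1, U q.1 + q.2)) = x ∘ Prod.fst := rfl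
    rw [this, ← Measure.map_map hx measurable_fst, Measure.map_fst_prod]
    simp
  obtain ⟨S, hS, hSG⟩ := transfer hx hV hVl hI hG3
  refine twoSided_of_law hβ hx hxX hS ?_
  rw [← hG2, ← hSG, Measure.map_map mθ (hx.prodMk hS)]
  rfl


lemma stp_stop (τ : ℝ≥0) (w : E) (t : ℝ) :
    (stp τ w).1 t = (stp τ w).1 (min (max t 0) τ) := by
  simp only [stp_apply]
  have h1 : (0 : ℝ) ≤ min (max t 0) τ := le_min (le_max_right _ _) τ.coe_nonneg
  rw [max_eq_left h1]
  rw [min_assoc, min_self]

lemma meas_piece_aux {Ω : Type*} {m : MeasurableSpace Ω} {f : Ω → ℝ≥0} {g : Ω → E}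
    (hf : Measurable f) (hg : Measurable g) : Measurable (fun ω => (f ω, g ω)) := hf.prodMk hg

lemma meas_of_stopping {F : Filtration ℝ≥0 mΩ} {T : Ω → ℝ≥0}
    (hT : IsStoppingTime F (fun ω => (T ω : WithTop ℝ≥0))) : Measurable T := by
  refine measurable_of_Iic fun a => ?_
  have h := F.le a _ (hT a)
  convert h using 1
  ext ω
  simp only [mem_preimage, mem_Iic, mem_ofPred_eq]
  exact WithTop.coe_le_coe.symm

lemma iIndepFun_mono {ι : Type*} {α γ : ι → Type*} [∀ i, MeasurableSpace (α i)]
    [∀ i, MeasurableSpace (γ i)] {f : ∀ i, Ω → α i} {g : ∀ i, Ω → γ i} (hf : iIndepFun f P)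
    (h : ∀ i, MeasurableSpace.comap (g i) inferInstance ≤
      MeasurableSpace.comap (f i) inferInstance) : iIndepFun g P := by
  rw [iIndepFun_iff] at hf ⊢
  intro s f' hf'
  exact hf s fun i hi => h i _ (hf' i hi)

/-- Law-level consequences of the hypotheses. -/
theorem laws {X : ℝ → Ω → ℝ} (hX : ∀ t, Measurable (X t)) (hdec : IsDecomposable X P)
    (hbbm : IsBBM X P) : ∃ (β : Measure E) (x : Ω → E) (U : Ω → ℝ) (R : ℕ → Ω → ℝ),
      IsBeta β ∧ Measurable x ∧ (∀ᵐ ω ∂P, ∀ t, (x ω).1 t = X t ω - X 0 ω) ∧ Measurable U ∧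
      P.map (fun ω => (bwd (th (U ω) (x ω)), fwd (th (U ω) (x ω)))) =
        (P.map (fun ω => bwd (th (U ω) (x ω)))).prod β ∧ (∀ n, Measurable (R n)) ∧
      (∀ᵐ ω ∂P, Tendsto (fun n => R n ω) atTop atTop) ∧
      ∀ n, P.map (fun ω => bwd (th (R n ω) (x ω))) = β := by
  obtain ⟨U, F, B, T, S, Y, hU, hB, hT, hind, hup, hdn, hS0, hSs, hY, hXY⟩ := hdec
  have hPp : IsProbabilityMeasure P := (hB 0).brownian.isGaussianProcess.isProbabilityMeasure
  -- the Brownian paths
  choose b hb using fun k => exists_pathOf (hB k)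
  set β : Measure E := P.map (b 0) with hβdef
  have hβ : IsBeta β := (hb 0).law (hB 0).brownian.toIsPreBrownianReal
  have hβp := hβ.prob
  -- the path of `X`
  have hXc : ∀ᵐ ω ∂P, Continuous (fun t => X t ω) := by
    filter_upwards [hY, hXY] with ω h1 h2
    have : (fun t => X t ω) = fun t => Y (t - U ω) ω + X (U ω) ω := by
      ext t
      rw [← h2]
      simp
    rw [this]
    exact (h1.1.comp (continuous_id.sub continuous_const)).add continuous_const
  obtain ⟨x, hx, hxX⟩ := exists_path hX hXc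
  -- the pieces
  have hTm : ∀ k, Measurable (T k) := fun k => meas_of_stopping (hT k)
  set p : ℤ → Ω → Piece := fun k ω => (T k ω, stp (T k ω) (b k ω)) with hp
  have hpm : ∀ k, Measurable (p k) := fun k => (hTm k).prodMk (meas_stp' (hTm k) (hb k).meas)
  have hyY : ∀ᵐ ω ∂P, ∀ t, (th (U ω) (x ω)).1 t = Y t ω := by
    filter_upwards [hxX, hXY] with ω h1 h2 t
    rw [th_apply, h1, h1, ← h2]
    ring
  have hcat : Cat p S (fun ω => th (U ω) (x ω)) β P := by
    refine ⟨hpm, meas_th' hU hx, ?_, ?_, ?_, hS0, ?_, ?_, ?_, ?_⟩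
    · -- independence
      have h1 : iIndepFun (fun k ω => (T k ω, fun t : ℝ≥0 => (b k ω).1 (min (t : ℝ) (T k ω)))) P := by
        refine (iIndepFun_congr fun k => ?_).1 hind
        filter_upwards [(hb k).eq] with ω h
        simp only [Prod.mk.injEq, true_and]
        ext t
        rw [← h]
        push_cast
        rfl
      refine iIndepFun_mono h1 fun k => ?_
      set f' : Ω → ℝ≥0 × (ℝ≥0 → ℝ) :=
        fun ω => (T k ω, fun t : ℝ≥0 => (b k ω).1 (min (t : ℝ) (T k ω))) with hf'
      have hc : Measurable[MeasurableSpace.comap f' inferInstance] f' := comap_measurable _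
      have h3 : Measurable[MeasurableSpace.comap f' inferInstance] (p k) := by
        have h4 : Measurable[MeasurableSpace.comap f' inferInstance] (fun ω => T k ω) :=
          measurable_fst.comp hc
        have h5 : Measurable[MeasurableSpace.comap f' inferInstance]
            (fun ω => stp (T k ω) (b k ω)) := by
          refine @meas_E Ω (MeasurableSpace.comap f' inferInstance) _ fun t => ?_
          have h6 : (fun ω => (stp (T k ω) (b k ω)).1 t) = fun ω => (f' ω).2 t.toNNReal := by
            ext ω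
            simp [stp_apply, hf', Real.coe_toNNReal']
          rw [h6]
          exact (measurable_pi_apply _).comp (measurable_snd.comp hc)
        exact meas_piece_aux (m := MeasurableSpace.comap f' inferInstance) h4 h5
      exact h3.comap_le
    · -- the strong Markov property
      intro k
      have h1 := SM (hB k) (hb k) hβ (hT k) (hTm k)
      have h2 : (P.map (p k)).prod β = (P.prod β).map (Prod.map (p k) id) := by
        rw [← Measure.map_prod_map _ _ (hpm k) measurable_id, Measure.map_id]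
      rw [h2, Measure.map_map meas_Phi ((hpm k).prodMap measurable_id)]
      exact h1
    · intro k ω t
      exact stp_stop _ _ _
    · intro k ω
      have := hSs k ω
      simp only [hp]
      linarith
    · -- forward divergence
      filter_upwards [hup] with ω h M
      have hS : ∀ n : ℕ, S (n + 1) ω = T 0 ω + ∑ i ∈ Finset.range n, (T (i + 1) ω : ℝ) := by
        intro n
        induction n with
        | zero =>
          have := hSs 0 ω
          rw [hS0] at this
          simpa using this
        | succ n ih =>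
          have := hSs (n + 1) ω
          rw [Finset.sum_range_succ]
          push_cast at this ih ⊢
          linarith
      have h1 : ∃ n : ℕ, ENNReal.ofReal M ≤ ∑ i ∈ Finset.range n, (T (i + 1) ω : ℝ≥0∞) := by
        rw [ENNReal.tsum_eq_iSup_nat] at h
        obtain ⟨n, hn⟩ := iSup_eq_top.1 h (ENNReal.ofReal M) ENNReal.ofReal_lt_top
        exact ⟨n, hn.le⟩
      obtain ⟨n, hn⟩ := h1
      refine ⟨n + 1, ?_⟩
      have h2 : M ≤ ∑ i ∈ Finset.range n, (T (i + 1) ω : ℝ) := by
        have h3 : (∑ i ∈ Finset.range n, (T (i + 1) ω : ℝ≥0∞)) =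
            ENNReal.ofReal (∑ i ∈ Finset.range n, (T (i + 1) ω : ℝ)) := by
          rw [ENNReal.ofReal_sum_of_nonneg fun i _ => NNReal.coe_nonneg _]
          refine Finset.sum_congr rfl fun i _ => ?_
          rw [ENNReal.ofReal_coe_nnreal]
        rw [h3] at hn
        exact (ENNReal.ofReal_le_ofReal_iff (Finset.sum_nonneg fun i _ => NNReal.coe_nonneg _)).1 hn
      have h4 : (0 : ℝ) ≤ T 0 ω := NNReal.coe_nonneg _
      have h5 := hS n
      push_cast at h5 ⊢
      linarith
    · -- backward divergence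
      filter_upwards [hdn] with ω h M
      have hS : ∀ n : ℕ, S (-n) ω = -∑ i ∈ Finset.range n, (T (-(i + 1)) ω : ℝ) := by
        intro n
        induction n with
        | zero => simp [hS0]
        | succ n ih =>
          have h1 := hSs (-(n + 1 : ℤ)) ω
          have h2 : (-(n + 1 : ℤ) + 1) = -(n : ℤ) := by ring
          rw [h2, ih] at h1
          rw [Finset.sum_range_succ]
          push_cast at h1 ⊢
          linarith
      have h1 : ∃ n : ℕ, ENNReal.ofReal M ≤ ∑ i ∈ Finset.range n, (T (-(i + 1)) ω : ℝ≥0∞) := by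
        rw [ENNReal.tsum_eq_iSup_nat] at h
        obtain ⟨n, hn⟩ := iSup_eq_top.1 h (ENNReal.ofReal M) ENNReal.ofReal_lt_top
        exact ⟨n, hn.le⟩
      obtain ⟨n, hn⟩ := h1
      refine ⟨n, ?_⟩
      have h2 : M ≤ ∑ i ∈ Finset.range n, (T (-(i + 1)) ω : ℝ) := by
        have h3 : (∑ i ∈ Finset.range n, (T (-(i + 1)) ω : ℝ≥0∞)) =
            ENNReal.ofReal (∑ i ∈ Finset.range n, (T (-(i + 1)) ω : ℝ)) := by
          rw [ENNReal.ofReal_sum_of_nonneg fun i _ => NNReal.coe_nonneg _]
          refine Finset.sum_congr rfl fun i _ => ?_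
          rw [ENNReal.ofReal_coe_nnreal]
        rw [h3] at hn
        exact (ENNReal.ofReal_le_ofReal_iff (Finset.sum_nonneg fun i _ => NNReal.coe_nonneg _)).1 hn
      have h5 := hS n
      linarith
    · -- the pieces agree with the path
      filter_upwards [hY, hyY, ae_all_iff.2 fun k => (hb k).eq] with ω h1 h2 h3 k t ht0 htT
      simp only [hp] at htT ⊢
      have e0 : (stp (T k ω) (b k ω)).1 t = (b k ω).1 t := by
        rw [stp_apply, max_eq_left ht0, min_eq_left htT]
      rw [e0]
      by_cases hT0 : (T k ω : ℝ) = 0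
      · have : t = 0 := le_antisymm (htT.trans hT0.le) ht0
        rw [this, (b k ω).2.2]
        simp
      have hEq : EqOn (fun r : ℝ => (th (U ω) (x ω)).1 (S k ω + r) - (th (U ω) (x ω)).1 (S k ω))
          (fun r => (b k ω).1 r) (Ico 0 (T k ω : ℝ)) := by
        intro r hr
        obtain ⟨hr0, hr1⟩ := mem_Ico.1 hr
        lift r to ℝ≥0 using hr0
        have h4 := h1.2.2 k r (NNReal.coe_lt_coe.1 hr1)
        have h5 := h3 k r
        simp only
        rw [h2, h2, h4, h5]
      have hcl := hEq.closure (by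
        have := (th (U ω) (x ω)).2.1
        fun_prop) (b k ω).2.1
      rw [closure_Ico (Ne.symm hT0)] at hcl
      exact hcl ⟨ht0, htT⟩
  -- the backward hypothesis
  obtain ⟨S', hS'm, hS't, hS'b⟩ := hbbm
  refine ⟨β, x, U, fun n ω => -S' n ω, hβ, hx, hxX, hU, hcat.bwd_fwd hβ,
    fun n => (hS'm n).neg, ?_, ?_⟩
  · filter_upwards [hS't] with ω h
    exact tendsto_neg_atBot_atTop.comp h
  · intro n
    refine IsBeta.unique (isBeta_of_process (hS'b n).toIsPreBrownianReal
      (meas_bwd.comp (meas_th' (hS'm n).neg hx)) (fun t => ?_) ?_) hβ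
    · filter_upwards [hxX] with ω h
      rw [bwd_apply, th_apply, max_eq_left t.coe_nonneg, h, h]
      have : -S' n ω + -(t : ℝ) = -(S' n ω + t) := by ring
      rw [this]
      ring
    · exact Eventually.of_forall fun ω => fwd_bwd _


theorem main {X : ℝ → Ω → ℝ} (hX : ∀ t, Measurable (X t)) (hdec : IsDecomposable X P)
    (hbbm : IsBBM X P) {Ω' : Type*} {mΩ' : MeasurableSpace Ω'} {P' : Measure Ω'} {π : Ω' → Ω}
    (hπ : MeasurePreserving π P' P) {V : Ω' → ℝ} (hV : Measurable V)
    (hVl : P'.map V = volume.restrict (Icc (0 : ℝ) 1))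
    (hI : IndepFun (fun ω t => X t (π ω)) V P') :
    IsTwoSidedBM (fun t ω => X t (π ω)) P' := by
  have hPp' : IsProbabilityMeasure P' := by
    refine ⟨?_⟩
    have h1 : P'.map V univ = 1 := by
      rw [hVl]
      simp
    rwa [Measure.map_apply hV MeasurableSet.univ, preimage_univ] at h1
  obtain ⟨β, x, U, R, hβ, hx, hxX, hU, hlaw, hR, hRt, hRl⟩ := laws hX hdec hbbm
  have hmm := hπ.measurable
  have hmap : ∀ {γ : Type} [MeasurableSpace γ] {g : Ω → γ}, Measurable g →
      P'.map (fun ω => g (π ω)) = P.map g := by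
    intro γ _ g hg
    have : (fun ω => g (π ω)) = g ∘ π := rfl
    rw [this, ← Measure.map_map hg hmm, hπ.map_eq]
  have hxX' : ∀ᵐ ω ∂P', ∀ t, (x (π ω)).1 t = X t (π ω) - X 0 (π ω) :=
    hπ.quasiMeasurePreserving.ae hxX
  have hIx : IndepFun (fun ω => x (π ω)) V P' := by
    have h1 : IndepFun (fun ω t => X t (π ω) - X 0 (π ω)) V P' := by
      have mc : Measurable (fun (f : ℝ → ℝ) (t : ℝ) => f t - f 0) :=
        measurable_pi_iff.2 fun t => (measurable_pi_apply t).sub (measurable_pi_apply 0)
      exact hI.comp mc measurable_id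
    have h2 : IndepFun (fun ω => (x (π ω)).1) V P' := by
      refine h1.congr ?_ (Eventually.of_forall fun _ => rfl)
      filter_upwards [hxX'] with ω h
      ext t
      exact (h t).symm
    exact indepFun_E (f := fun ω => x (π ω)) (φ := id) measurable_id (fun ω => rfl) h2
  have mU : Measurable (fun ω => th (U ω) (x ω)) := meas_th' hU hx
  refine core hβ (hx.comp hmm) hxX' (U := fun ω => U (π ω)) (hU.comp hmm) ?_
    (R := fun n ω => R n (π ω)) (fun n => (hR n).comp hmm) (hπ.quasiMeasurePreserving.ae hRt)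
    (fun n => ?_) hV hVl hIx
  · have h1 := hmap ((meas_bwd.comp mU).prodMk (meas_fwd.comp mU))
    have h2 := hmap (meas_bwd.comp mU)
    simp only [Function.comp_apply] at h1 h2 ⊢
    rw [h1, h2]
    exact hlaw
  · have h1 := hmap (meas_bwd.comp (meas_th' (hR n) hx))
    simp only [Function.comp_apply] at h1 ⊢
    rw [h1]
    exact hRl n

end Pool.Agent.Lib.MP_5dec12_pr
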